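import Pool.Agent.Lib.TATE.PA.Spec

/-!
# PROJECT TATE, package PA, Con: from segments to a continuous path
-/

set_option autoImplicit false

open Topology Metric Set

noncomputable section

namespace TATE.PA

namespace ConAux

/-- The projection to the unit interval. -/
def pr (t : ℝ) : ℝ := max 0 (min 1 t)

theorem pr_cont : Continuous pr := by
  unfold pr
  fun_prop

theorem pr_mem (t : ℝ) : pr t ∈ Icc (0:ℝ) 1 :=
  ⟨le_max_left _ _, max_le zero_le_one (min_le_left _ _)⟩

theorem pr_eq (t : ℝ) (ht : t ∈ Icc (0:ℝ) 1) : pr t = t := by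
  unfold pr
  rw [min_eq_right ht.2, max_eq_right ht.1]

end ConAux

open ConAux in
theorem uCon : S_Con := by
  intro W _ U R x y hxU hxR h
  suffices hs : ∃ (γ : ℝ → ℂ) (g : ℝ → W), Continuous γ ∧ Continuous g ∧ γ 0 = x.1 ∧ γ 1 = y.1 ∧
      (∀ t ∈ Icc (0:ℝ) 1, γ t ∈ U) ∧ g 0 = x.2 ∧ g 1 = y.2 ∧
      ∀ t ∈ Icc (0:ℝ) 1, g t ∈ R (γ t) by
    obtain ⟨γ, g, h1, h2, h3, h4, h5, h6, h7, h8⟩ := hs
    exact ⟨γ, g, h1, h3, h4, h5, h2.continuousOn, h6, h7, h8⟩
  unfold Reach at h
  induction h with
  | refl =>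
    exact ⟨fun _ => x.1, fun _ => x.2, continuous_const, continuous_const, rfl, rfl,
      fun _ _ => hxU, rfl, rfl, fun _ _ => hxR⟩
  | @tail b c _ hst ih =>
    obtain ⟨γ, g, h1, h2, h3, h4, h5, h6, h7, h8⟩ := ih
    obtain ⟨hseg, k, hk1, hk2, hk3, hk4⟩ := hst
    have hkc : Continuous (fun t => k (pr (2 * t - 1))) :=
      hk1.comp_continuous (pr_cont.comp (by fun_prop)) (fun t => pr_mem _)
    have hp0 : pr (2 * (1 / 2 : ℝ) - 1) = 0 := by
      rw [pr_eq] <;> norm_num
    refine ⟨fun t => if t ≤ 1 / 2 then γ (2 * t) else AffineMap.lineMap b.1 c.1 (2 * t - 1),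
      fun t => if t ≤ 1 / 2 then g (2 * t) else k (pr (2 * t - 1)), ?_, ?_, ?_, ?_, ?_, ?_, ?_, ?_⟩
    · refine Continuous.if_le (h1.comp (by fun_prop)) ?_ continuous_id continuous_const ?_
      · exact AffineMap.lineMap_continuous.comp (by fun_prop)
      · intro t ht
        have ht' : t = 1 / 2 := ht
        rw [ht']
        norm_num
        exact h4
    · refine Continuous.if_le (h2.comp (by fun_prop)) hkc continuous_id continuous_const ?_
      intro t ht
      have ht' : t = 1 / 2 := ht
      rw [ht', hp0, hk2, ← h7]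
      norm_num
    · simp only
      rw [if_pos (by norm_num), mul_zero, h3]
    · simp only
      rw [if_neg (by norm_num)]
      norm_num
    · intro t ht
      simp only
      split_ifs with h
      · exact h5 _ ⟨by linarith [ht.1], by linarith⟩
      · apply hseg
        rw [segment_eq_image_lineMap]
        exact ⟨2 * t - 1, ⟨by linarith, by linarith [ht.2]⟩, rfl⟩
    · simp only
      rw [if_pos (by norm_num), mul_zero, h6]
    · simp only
      rw [if_neg (by norm_num), pr_eq _ (by norm_num)]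
      norm_num
      exact hk3
    · intro t ht
      simp only
      split_ifs with h
      · exact h8 _ ⟨by linarith [ht.1], by linarith⟩
      · have hm : 2 * t - 1 ∈ Icc (0:ℝ) 1 := ⟨by linarith, by linarith [ht.2]⟩
        rw [pr_eq _ hm]
        exact hk4 _ hm

end TATE.PA
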