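import Pool.Agent.Lib.TATE.PA.Spec

/-!
# PROJECT TATE, PA: transport means continuous and lattice to lattice
-/

set_option autoImplicit false

open Topology Metric Set

noncomputable section

namespace TATE.PA

namespace EqvAux

/-- A locally constant property on the unit interval. -/
theorem locc (P : ℝ → Prop)
    (h : ∀ t ∈ Icc (0 : ℝ) 1, ∃ ε > 0, ∀ t' ∈ Icc (0 : ℝ) 1, |t' - t| < ε → (P t ↔ P t'))
    (h0 : P 0) : ∀ t ∈ Icc (0 : ℝ) 1, P t := by
  have hcl : IsClosed ({t | P t} ∩ Icc (0 : ℝ) 1) := by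
    rw [← closure_subset_iff_isClosed]
    intro t ht
    have htI : t ∈ Icc (0 : ℝ) 1 :=
      isClosed_Icc.closure_subset_iff.2 (inter_subset_right) ht
    obtain ⟨ε, hε, hh⟩ := h t htI
    obtain ⟨s, hs, hst⟩ := Metric.mem_closure_iff.1 ht ε hε
    refine ⟨(hh s hs.2 ?_).2 hs.1, htI⟩
    rwa [dist_comm, Real.dist_eq] at hst
  refine hcl.Icc_subset_of_forall_mem_nhdsWithin h0 ?_
  rintro x ⟨hx, hx0, hx1⟩
  obtain ⟨ε, hε, hh⟩ := h x ⟨hx0, hx1.le⟩
  rw [mem_nhdsWithin]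
  refine ⟨Ioo (x - ε) (min (x + ε) 1), isOpen_Ioo, ⟨by linarith, lt_min (by linarith) hx1⟩, ?_⟩
  rintro y ⟨⟨hy1, hy2⟩, hy3⟩
  have hy4 : x < y := hy3
  have hy5 : y < x + ε := lt_of_lt_of_le hy2 (min_le_left _ _)
  have hy6 : y < 1 := lt_of_lt_of_le hy2 (min_le_right _ _)
  refine (hh y ⟨by linarith, hy6.le⟩ ?_).1 hx
  rw [abs_lt]
  exact ⟨by linarith, by linarith⟩

variable {V : Type} [NormedAddCommGroup V] [NormedSpace ℂ V] [FiniteDimensional ℂ V] {F : Set ℂ}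

theorem cl_apply (T : V ≃ₗ[ℝ] V) (v : V) : cl T v = T v := rfl

/-- Continuity of the local transport. -/
theorem cont_loc (M : Fml V F) {γ : ℝ → ℂ} (hγ : Continuous γ) {z : ℂ} (hz : z ∉ F) (v : V)
    {s : Set ℝ} (hs : ∀ u ∈ s, γ u ∈ ball z (M.r z)) :
    ContinuousOn (fun u => M.τ z (γ u) v) s :=
  (M.hol z hz v).continuousOn.comp hγ.continuousOn hs

theorem fwd {M : Fml V F} {γ : ℝ → ℂ} {z z' : ℂ} (hγ : IsPth F γ z z') {φ : ℝ → (V ≃ₗ[ℝ] V)}
    (h : IsTr M γ φ) : (∀ v, φ 0 v = v) ∧ ContinuousOn (fun t => cl (φ t)) (Icc 0 1) ∧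
      ∀ t ∈ Icc (0 : ℝ) 1, φ t '' M.L z = M.L (γ t) := by
  refine ⟨h.zero, ?_, ?_⟩
  · rw [continuousOn_clm_apply]
    intro v t ht
    obtain ⟨ε, hε, hh⟩ := h.loc t ht
    have hF : γ t ∉ F := hγ.mem t ht
    have h1 : ContinuousAt (fun u => M.τ (γ t) u (φ t v)) (γ t) :=
      ((M.hol (γ t) hF (φ t v)).continuousOn).continuousAt (ball_mem_nhds _ (M.rpos _ hF))
    have h2 : ContinuousWithinAt (fun t' => M.τ (γ t) (γ t') (φ t v)) (Icc 0 1) t :=
      (ContinuousAt.comp (f := γ) h1 hγ.cont.continuousAt).continuousWithinAt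
    refine h2.congr_of_eventuallyEq ?_ ?_
    · have h3 : ∀ᶠ t' in 𝓝[Icc 0 1] t, t' ∈ ball t ε :=
        mem_nhdsWithin_of_mem_nhds (ball_mem_nhds t hε)
      filter_upwards [h3, self_mem_nhdsWithin] with t' ht' ht'I
      rw [mem_ball, Real.dist_eq] at ht'
      exact (hh t' ht'I ht').2 v
    · exact ((hh t ht (by rw [sub_self, abs_zero]; exact hε)).2 v)
  · refine locc (fun t => φ t '' M.L z = M.L (γ t)) ?_ ?_
    · intro t ht
      obtain ⟨ε, hε, hh⟩ := h.loc t ht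
      have hF : γ t ∉ F := hγ.mem t ht
      refine ⟨ε, hε, fun t' ht' htt => ?_⟩
      obtain ⟨hb, hv⟩ := hh t' ht' htt
      have hlat := M.lat (γ t) hF (γ t') hb
      have himg : φ t' '' M.L z = M.τ (γ t) (γ t') '' (φ t '' M.L z) := by
        rw [← image_comp]
        exact image_congr fun v _ => hv v
      constructor
      · intro hP
        change φ t' '' M.L z = M.L (γ t')
        rw [himg, hP, hlat]
      · intro hP
        change φ t' '' M.L z = M.L (γ t') at hP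
        rw [himg, ← hlat] at hP
        exact (M.τ (γ t) (γ t')).injective.image_injective hP
    · change φ 0 '' M.L z = M.L (γ 0)
      rw [hγ.src]
      have : (φ 0 : V → V) = id := funext fun v => h.zero v
      rw [this, image_id]

theorem bwd (hU : S_Unq) (hL : S_FrL) (hF : F.Finite) {M : Fml V F} {γ : ℝ → ℂ} {z z' : ℂ}
    (hγ : IsPth F γ z z') {φ : ℝ → (V ≃ₗ[ℝ] V)} (h0 : ∀ v, φ 0 v = v)
    (hc : ContinuousOn (fun t => cl (φ t)) (Icc 0 1))
    (hl : ∀ t ∈ Icc (0 : ℝ) 1, φ t '' M.L z = M.L (γ t)) : IsTr M γ φ := by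
  refine ⟨h0, fun t ht => ?_⟩
  have hzF : z ∉ F := by
    have := hγ.mem 0 ⟨le_rfl, zero_le_one⟩
    rwa [hγ.src] at this
  have hFt : γ t ∉ F := hγ.mem t ht
  obtain ⟨ε, hε, hh⟩ := Metric.continuousAt_iff.1 (hγ.cont.continuousAt (x := t)) _ (M.rpos _ hFt)
  refine ⟨ε, hε, fun t' ht' htt => ?_⟩
  have hball : ∀ u, |u - t| < ε → γ u ∈ ball (γ t) (M.r (γ t)) := fun u hu =>
    hh (by rwa [Real.dist_eq])
  refine ⟨hball t' htt, ?_⟩
  have hab : ∀ u ∈ Icc (min t t') (max t t'), u ∈ Icc (0 : ℝ) 1 ∧ |u - t| < ε := by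
    intro u hu
    refine ⟨⟨(le_min ht.1 ht'.1).trans hu.1, hu.2.trans (max_le ht.2 ht'.2)⟩, ?_⟩
    rw [abs_lt] at htt ⊢
    constructor
    · have h1 : t - ε < min t t' := lt_min (by linarith) (by linarith [htt.1])
      linarith [hu.1]
    · have h1 : max t t' < t + ε := max_lt (by linarith) (by linarith [htt.2])
      linarith [hu.2]
  have key := hU ℂ (V →L[ℝ] V) Fᶜ (Frm M z) (hL V F hF M z hzF) γ (fun u => cl (φ u))
    (fun u => (cl (M.τ (γ t) (γ u))).comp (cl (φ t))) (min t t') (max t t')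
    hγ.cont.continuousOn (fun u hu => hγ.mem u (hab u hu).1)
    (hc.mono fun u hu => (hab u hu).1) ?_ ?_ ?_ t ⟨min_le_left _ _, le_max_left _ _⟩ ?_ t'
    ⟨min_le_right _ _, le_max_right _ _⟩
  · intro v
    have := DFunLike.congr_fun key v
    exact this
  · rw [continuousOn_clm_apply]
    intro v
    exact cont_loc M hγ.cont hFt (φ t v) fun u hu => hball u (hab u hu).2
  · intro u hu
    exact ⟨φ u, rfl, hl u (hab u hu).1⟩
  · intro u hu
    refine ⟨(φ t).trans (M.τ (γ t) (γ u)), ?_, ?_⟩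
    · ext v
      rfl
    · have h1 : ((φ t).trans (M.τ (γ t) (γ u)) : V → V) '' M.L z =
          M.τ (γ t) (γ u) '' (φ t '' M.L z) := by
        rw [← image_comp]
        rfl
      rw [h1, hl t ht]
      exact M.lat (γ t) hFt (γ u) (hball u (hab u hu).2)
  · ext v
    exact (M.one (γ t) hFt (φ t v)).symm

end EqvAux

open EqvAux in
theorem uEqv : S_Unq → S_FrL → S_Eqv := by
  intro hU hL V _ _ _ F hF M γ z z' hγ φ
  exact ⟨fun h => fwd hγ h, fun h => bwd hU hL hF hγ h.1 h.2.1 h.2.2⟩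

end TATE.PA
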