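import Pool.Agent.Lib.TATE.PA.Spec

/-! PROJECT TATE, PA/FrL: the frames of a family are a local system. -/

set_option autoImplicit false

open Topology Metric Set

noncomputable section

namespace TATE.PA

namespace FrLAux

variable {V : Type} [NormedAddCommGroup V] [NormedSpace ℂ V] [FiniteDimensional ℂ V] {F : Set ℂ}

theorem cl_apply (T : V ≃ₗ[ℝ] V) (v : V) : cl T v = T v := rfl

theorem cl_trans (S T : V ≃ₗ[ℝ] V) : cl (S.trans T) = (cl T).comp (cl S) := by
  ext v
  simp [cl_apply]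

theorem cl_symm_comp (T : V ≃ₗ[ℝ] V) : (cl T.symm).comp (cl T) = ContinuousLinearMap.id ℝ V := by
  ext v
  simp [cl_apply]

theorem cl_comp_symm (T : V ≃ₗ[ℝ] V) : (cl T).comp (cl T.symm) = ContinuousLinearMap.id ℝ V := by
  ext v
  simp [cl_apply]

theorem countable_frm (M : Fml V F) {z0 z : ℂ} (h0 : z0 ∉ F) (hz : z ∉ F) :
    (Frm M z0 z).Countable := by
  have hs : ⊤ ≤ Submodule.span ℝ (M.L z0) := by rw [M.spn z0 h0]
  let b := Module.Basis.ofSpan hs
  have hb : Set.range b ⊆ M.L z0 := Module.Basis.ofSpan_subset hs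
  have hcount := Set.countable_pi (α := _) (π := fun _ => V)
    (s := fun _ : ((linearIndepOn_empty ℝ (id : V → V)).extend (Set.empty_subset (M.L z0))) =>
      M.L z) (fun _ => M.cnt z hz)
  refine Set.MapsTo.countable_of_injOn (f := fun T : V →L[ℝ] V => fun i => T (b i)) ?_ ?_ hcount
  · rintro T ⟨T', rfl, hT'⟩ i
    rw [← hT']
    exact ⟨b i, hb ⟨i, rfl⟩, rfl⟩
  · intro T _ T' _ h
    have h' : (T : V →ₗ[ℝ] V) = (T' : V →ₗ[ℝ] V) := by
      apply b.ext
      intro i
      exact congrFun h i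
    ext v
    exact congrArg (fun f : V →ₗ[ℝ] V => f v) h'

theorem contOn_cl (M : Fml V F) {z1 : ℂ} (h1 : z1 ∉ F) :
    ContinuousOn (fun z => cl (M.τ z1 z)) (ball z1 (M.r z1)) := by
  rw [continuousOn_clm_apply]
  intro v
  exact (M.hol z1 h1 v).continuousOn

theorem inverse_cl (T : V ≃ₗ[ℝ] V) : Ring.inverse (cl T) = cl T.symm := by
  let u : (V →L[ℝ] V)ˣ := ⟨cl T, cl T.symm, cl_comp_symm T, cl_symm_comp T⟩
  exact Ring.inverse_unit u

theorem contOn_cl_symm (M : Fml V F) {z1 : ℂ} (h1 : z1 ∉ F) :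
    ContinuousOn (fun z => cl (M.τ z1 z).symm) (ball z1 (M.r z1)) := by
  have : CompleteSpace V := FiniteDimensional.complete ℝ V
  have h : (fun z => cl (M.τ z1 z).symm) = fun z => Ring.inverse (cl (M.τ z1 z)) := by
    funext z
    exact (inverse_cl _).symm
  rw [h]
  intro z hz
  have hu : ContinuousAt Ring.inverse (cl (M.τ z1 z)) := by
    let u : (V →L[ℝ] V)ˣ :=
      ⟨cl (M.τ z1 z), cl (M.τ z1 z).symm, cl_comp_symm _, cl_symm_comp _⟩
    exact NormedRing.inverse_continuousAt u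
  exact ContinuousAt.comp_continuousWithinAt (f := fun z => cl (M.τ z1 z)) hu
    (contOn_cl M h1 z hz)

end FrLAux

open FrLAux in
theorem uFrL : S_FrL := by
  intro V _ _ _ F hF M z0 hz0
  refine ⟨hF.isClosed.isOpen_compl, fun z hz => countable_frm M hz0 hz, ?_⟩
  intro z1 hz1
  have hz1' : z1 ∉ F := hz1
  refine ⟨ball z1 (M.r z1), isOpen_ball, mem_ball_self (M.rpos z1 hz1'),
    fun z hz => M.dom z1 hz1' z hz, fun z T => (cl (M.τ z1 z)).comp T,
    fun z T => (cl (M.τ z1 z).symm).comp T, ?_, ?_, ?_, ?_⟩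
  · intro T _
    ext v
    exact M.one z1 hz1' (T v)
  · intro z hz
    refine ⟨?_, ?_, ?_, ?_⟩
    · rintro T ⟨T', rfl, hT'⟩
      refine ⟨T'.trans (M.τ z1 z), cl_trans _ _, ?_⟩
      rw [← M.lat z1 hz1' z hz, ← hT', Set.image_image]
      rfl
    · rintro T ⟨T', rfl, hT'⟩
      refine ⟨T'.trans (M.τ z1 z).symm, cl_trans _ _, ?_⟩
      have h2 : (T'.trans (M.τ z1 z).symm) '' M.L z0 = (M.τ z1 z).symm '' (T' '' M.L z0) := by
        rw [Set.image_image]
        rfl
      rw [h2, hT', ← M.lat z1 hz1' z hz, Set.image_image]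
      simp
    · intro T _
      ext v
      simp [cl_apply]
    · intro T _
      ext v
      simp [cl_apply]
  · intro T _
    exact (contOn_cl M hz1').clm_comp continuousOn_const
  · have h3 : MapsTo Prod.fst {q : ℂ × (V →L[ℝ] V) | q.1 ∈ ball z1 (M.r z1) ∧
        q.2 ∈ Frm M z0 q.1} (ball z1 (M.r z1)) := fun q hq => hq.1
    exact ((contOn_cl_symm M hz1').comp continuousOn_fst h3).clm_comp continuousOn_snd

end TATE.PA
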