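import Pool.Agent.Lib.TATE.PA.Spec

/-!
# PROJECT TATE, package PA: lifting of continuous paths
-/

set_option autoImplicit false

open Topology Metric Set

noncomputable section

namespace TATE.PA

theorem uLPa : S_Pul → S_Tub → S_LPa := by
  intro hPul hTub X W _ _ U R hR γ hγ hU w hw
  have h01 : (0 : ℝ) ≤ 1 := zero_le_one
  set h : ℝ → X := fun t => γ (projIcc (0 : ℝ) 1 h01 t) with hh
  have hcont : Continuous h := hγ.restrict.comp continuous_projIcc
  have hval : ∀ t ∈ Icc (0 : ℝ) 1, h t = γ t := by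
    intro t ht
    rw [hh]
    dsimp only
    rw [projIcc_of_mem h01 ht]
  have hmem : ∀ t : ℝ, h t ∈ U := fun t => hU _ (projIcc (0 : ℝ) 1 h01 t).2
  have hLS := hPul X ℝ W U R h hR hcont
  have h0 : (0 : ℝ) ∈ Icc (0 : ℝ) 1 := ⟨le_rfl, h01⟩
  have hw' : w ∈ R (h 0) := by
    rw [hval 0 h0]
    exact hw
  obtain ⟨ρ, hρ, -, σ, hσ0, hσc, hσ⟩ := hTub ℝ W (h ⁻¹' U) (fun y => R (h y)) hLS 0 1
    (fun t _ => hmem t) w hw'
  have hsub : Icc (0 : ℝ) 1 ⊆ thickening ρ (segment ℝ (0 : ℝ) 1) := by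
    rw [segment_eq_Icc h01]
    exact self_subset_thickening hρ _
  refine ⟨σ, hσ0, hσc.mono hsub, fun t ht => ?_⟩
  have h1 := hσ t (hsub ht)
  rw [hval t ht] at h1
  exact h1

end TATE.PA
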