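import Pool.Agent.Lib.TATE.PA.Spec

/-!
# PROJECT TATE, package PA: transport along segments
-/

set_option autoImplicit false

open Topology Metric Set

noncomputable section

namespace TATE.PA

namespace LftAux

theorem lineMap_mem {a b : ℂ} {t : ℝ} (ht : t ∈ Icc (0:ℝ) 1) :
    AffineMap.lineMap a b t ∈ segment ℝ a b := by
  rw [segment_eq_image_lineMap]
  exact mem_image_of_mem _ ht

/-- The restriction of a section to a segment. -/
theorem of_section {W : Type} [MetricSpace W] (R : ℂ → Set W) (T : Set ℂ) (σ : ℂ → W)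
    (hc : ContinuousOn σ T) (hR : ∀ z ∈ T, σ z ∈ R z) (a b : ℂ) (hab : segment ℝ a b ⊆ T) :
    Lift R a b (σ a) (σ b) := by
  refine ⟨fun t => σ (AffineMap.lineMap a b t), ?_, ?_, ?_, ?_⟩
  · apply hc.comp AffineMap.lineMap_continuous.continuousOn
    intro t ht
    exact hab (lineMap_mem ht)
  · change σ (AffineMap.lineMap a b (0:ℝ)) = σ a
    rw [AffineMap.lineMap_apply_zero]
  · change σ (AffineMap.lineMap a b (1:ℝ)) = σ b
    rw [AffineMap.lineMap_apply_one]
  · intro t ht
    exact hR _ (hab (lineMap_mem ht))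

theorem left_mem {W : Type} [MetricSpace W] {R : ℂ → Set W} {a b : ℂ} {w w' : W}
    (h : Lift R a b w w') : w ∈ R a := by
  obtain ⟨g, _, h0, _, hR⟩ := h
  have := hR 0 (left_mem_Icc.mpr zero_le_one)
  rwa [AffineMap.lineMap_apply_zero, h0] at this

theorem symm {W : Type} [MetricSpace W] {R : ℂ → Set W} {a b : ℂ} {w w' : W}
    (h : Lift R a b w w') : Lift R b a w' w := by
  obtain ⟨g, hc, h0, h1, hR⟩ := h
  have hm : ∀ t ∈ Icc (0:ℝ) 1, 1 - t ∈ Icc (0:ℝ) 1 := by
    intro t ht
    exact ⟨by linarith [ht.2], by linarith [ht.1]⟩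
  refine ⟨fun t => g (1 - t), ?_, ?_, ?_, ?_⟩
  · exact hc.comp (continuous_const.sub continuous_id).continuousOn hm
  · simp only [sub_zero, h1]
  · simp only [sub_self, h0]
  · intro t ht
    have := hR (1 - t) (hm t ht)
    rwa [AffineMap.lineMap_apply_one_sub] at this

end LftAux

theorem uLft : S_Unq → S_Tub → S_Lft := by
  intro hU hT W _ U R h
  have huniq : ∀ a b, segment ℝ a b ⊆ U → ∀ w w1 w2, Lift R a b w w1 → Lift R a b w w2 →
      w1 = w2 := by
    intro a b hab w w1 w2 h1 h2
    obtain ⟨g, gc, g0, g1, gR⟩ := h1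
    obtain ⟨k, kc, k0, k1, kR⟩ := h2
    have := hU ℂ W U R h (fun t => AffineMap.lineMap a b t) g k 0 1
      AffineMap.lineMap_continuous.continuousOn (fun t ht => hab (LftAux.lineMap_mem ht)) gc kc gR kR
      0 (left_mem_Icc.mpr zero_le_one) (by rw [g0, k0]) 1 (right_mem_Icc.mpr zero_le_one)
    rwa [g1, k1] at this
  refine ⟨?_, huniq, ?_, ?_, ?_, ?_⟩
  · intro a b hab w hw
    obtain ⟨ρ, hρ, hρU, σ, h0, hc, hR⟩ := hT ℂ W U R h a b hab w hw
    have hs : segment ℝ a b ⊆ thickening ρ (segment ℝ a b) := self_subset_thickening hρ _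
    refine ⟨σ b, hR b (hs (right_mem_segment ℝ a b)), ?_⟩
    have := LftAux.of_section R _ σ hc hR a b hs
    rwa [h0] at this
  · intro a b w w' hl
    exact LftAux.symm hl
  · intro a w hw
    refine ⟨fun _ => w, continuousOn_const, rfl, rfl, ?_⟩
    intro t _
    rw [AffineMap.lineMap_same_apply]
    exact hw
  · have hsym : Symmetric (Step U R) := by
      rintro x y ⟨h1, h2⟩
      refine ⟨?_, LftAux.symm h2⟩
      rw [segment_symm]
      exact h1
    intro x y hxy
    unfold Reach at hxy ⊢
    induction hxy with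
    | refl => exact Relation.ReflTransGen.refl
    | tail _ h2 ih => exact Relation.ReflTransGen.head (hsym h2) ih
  · intro a b hab w w' hl
    have hw : w ∈ R a := LftAux.left_mem hl
    obtain ⟨ρ, hρ, hρU, σ, h0, hc, hR⟩ := hT ℂ W U R h a b hab w hw
    set T := thickening ρ (segment ℝ a b) with hTd
    have hs : segment ℝ a b ⊆ T := self_subset_thickening hρ _
    have hTc : Convex ℝ T := (convex_segment a b).thickening ρ
    have ha : a ∈ segment ℝ a b := left_mem_segment ℝ a b
    have hb : b ∈ segment ℝ a b := right_mem_segment ℝ a b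
    have hba : ball a ρ ⊆ T := ball_subset_thickening ha ρ
    have hbb : ball b ρ ⊆ T := ball_subset_thickening hb ρ
    have hsb : σ b = w' := by
      apply huniq a b hab w _ _ _ hl
      have := LftAux.of_section R _ σ hc hR a b hs
      rwa [h0] at this
    refine ⟨ρ, hρ, hba.trans hρU, hbb.trans hρU, ?_⟩
    intro a' ha' b' hb' w1 w1' hl1 hl2
    have hseg : segment ℝ a' b' ⊆ T := hTc.segment_subset (hba ha') (hbb hb')
    have hsa : segment ℝ a a' ⊆ T := hTc.segment_subset (hs ha) (hba ha')
    have hsb' : segment ℝ b b' ⊆ T := hTc.segment_subset (hs hb) (hbb hb')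
    have e1 : σ a' = w1 := by
      apply huniq a a' (hsa.trans hρU) w _ _ _ hl1
      have := LftAux.of_section R _ σ hc hR a a' hsa
      rwa [h0] at this
    have e2 : σ b' = w1' := by
      apply huniq b b' (hsb'.trans hρU) w' _ _ _ hl2
      have := LftAux.of_section R _ σ hc hR b b' hsb'
      rwa [hsb] at this
    refine ⟨hseg.trans hρU, ?_⟩
    have := LftAux.of_section R _ σ hc hR a' b' hseg
    rwa [e1, e2] at this

end TATE.PA
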