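import Pool.Agent.Lib.TATE.PA.Spec
import Pool.Agent.Lib.MP_640417_ag.TATE.PathC

/-!
# TATE, package PA, module Mov: moving a polygonal path off a countable set
-/

set_option autoImplicit false

open Topology Metric Set MeasureTheory

noncomputable section

namespace TATE.PA

namespace MovAux

variable {W : Type} [MetricSpace W]

theorem lift_mem {R : ℂ → Set W} {a b : ℂ} {w w' : W} (h : Lift R a b w w') : w' ∈ R b := by
  obtain ⟨g, _, _, h1, h2⟩ := h
  have := h2 1 ⟨zero_le_one, le_rfl⟩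
  rwa [h1, AffineMap.lineMap_apply_one] at this

theorem seg_ball {z z' : ℂ} {ε : ℝ} (hε : 0 < ε) (hz : z' ∈ ball z ε) :
    segment ℝ z z' ⊆ ball z ε :=
  (convex_ball z ε).segment_subset (mem_ball_self hε) hz

/-- a point in an open ball with a property that holds almost everywhere -/
theorem pick {p : ℂ → Prop} (hp : ∀ᵐ b : ℂ, p b) (z : ℂ) {ε : ℝ} (hε : 0 < ε) :
    ∃ b ∈ ball z ε, p b := by
  have hd : Dense {b : ℂ | p b} := Measure.dense_of_ae hp
  obtain ⟨b, hb, hb'⟩ := hd.inter_nhds_nonempty (ball_mem_nhds z hε)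
  exact ⟨b, hb', hb⟩

end MovAux

open MovAux Pool.Agent.A640.Tate in
theorem uMov : S_Lft → S_Mov := by
  intro hL W _ U R hR Bad hB z0 hz0 hz0B z1 hz1B w hw w' hre
  obtain ⟨hex, -, hinv, -, -, hq⟩ := hL W U R hR
  have hae : ∀ᵐ z : ℂ, z ∉ Bad := hB.ae_notMem volume
  have claim : ∀ x : ℂ × W, Reach U R (z0, w) x → x.2 ∈ R x.1 ∧ ∃ ε > 0, ball x.1 ε ⊆ U ∧
      ∀ᵐ z' : ℂ, z' ∈ ball x.1 ε → ∀ u', Lift R x.1 z' x.2 u' →
        Reach (U \ Bad) R (z0, w) (z', u') := by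
    intro x hx
    induction hx with
    | refl =>
      obtain ⟨ε, hε, hεU⟩ := Metric.isOpen_iff.1 hR.isOpen z0 hz0
      refine ⟨hw, ε, hε, hεU, ?_⟩
      filter_upwards [ae_segment_disjoint hB hz0B] with z' hz' hzb u' hu'
      refine Relation.ReflTransGen.single ⟨?_, hu'⟩
      intro y hy
      exact ⟨hεU (seg_ball hε hzb hy), Set.disjoint_left.1 hz' hy⟩
    | @tail b c _ hbc ih =>
      obtain ⟨hbR, ε, hε, hεU, hae1⟩ := ih
      obtain ⟨hseg, hlift⟩ := hbc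
      obtain ⟨ε1, hε1, _, hyU, hquad⟩ := hq b.1 c.1 hseg b.2 c.2 hlift
      refine ⟨lift_mem hlift, ε1, hε1, hyU, ?_⟩
      obtain ⟨z', hz', hz'1, hz'2⟩ := pick (hae1.and hae) b.1 (lt_min hε hε1)
      have hzε : z' ∈ ball b.1 ε := ball_subset_ball (min_le_left _ _) hz'
      have hzε1 : z' ∈ ball b.1 ε1 := ball_subset_ball (min_le_right _ _) hz'
      obtain ⟨u', _, hu'⟩ := hex b.1 z' ((seg_ball hε hzε).trans hεU) b.2 hbR
      have hr := hz'1 hzε u' hu'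
      filter_upwards [ae_segment_disjoint hB hz'2] with y' hy' hyb x' hx'
      obtain ⟨h1, h2⟩ := hquad z' hzε1 y' hyb u' x' hu' hx'
      exact hr.tail ⟨fun q hq => ⟨h1 hq, Set.disjoint_left.1 hy' hq⟩, h2⟩
  obtain ⟨hwR, ε, hε, hεU, hae1⟩ := claim (z1, w') hre
  obtain ⟨z', hz', hz'1, hz'2⟩ := pick (hae1.and (ae_segment_disjoint hB hz1B)) z1 hε
  obtain ⟨u', _, hu'⟩ := hex z1 z' ((seg_ball hε hz').trans hεU) w' hwR
  refine (hz'1 hz' u' hu').tail ⟨?_, hinv _ _ _ _ hu'⟩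
  intro q hq
  rw [segment_symm] at hq
  exact ⟨hεU (seg_ball hε hz' hq), Set.disjoint_left.1 hz'2 hq⟩

end TATE.PA
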