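import Pool.Agent.Lib.TATE.PA.Spec

/-!
# PROJECT TATE, package PA: existence and uniqueness of the transport
-/

set_option autoImplicit false

open Topology Metric Set

noncomputable section

namespace TATE.PA

namespace P1Aux

variable {V : Type} [NormedAddCommGroup V] [NormedSpace ℂ V] [FiniteDimensional ℂ V] {F : Set ℂ}

theorem cl_apply (T : V ≃ₗ[ℝ] V) (v : V) : cl T v = T v := rfl

theorem id_mem (M : Fml V F) (z : ℂ) : ContinuousLinearMap.id ℝ V ∈ Frm M z z := by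
  refine ⟨LinearEquiv.refl ℝ V, ?_, ?_⟩
  · ext v
    rw [cl_apply]
    rfl
  · ext v
    constructor
    · rintro ⟨w, hw, rfl⟩
      exact hw
    · intro hv
      exact ⟨v, hv, rfl⟩

end P1Aux

theorem tPA1 : S_LPa → S_Unq → S_FrL → S_Eqv → StmtPA1 := by
  intro hL hU hF hE V _ _ _ F hfin M γ z z' hγ
  have hz : z ∉ F := by
    have h := hγ.mem 0 ⟨le_refl 0, zero_le_one⟩
    rwa [hγ.src] at h
  have hLS := hF V F hfin M z hz
  have hmem : ∀ t ∈ Icc (0:ℝ) 1, γ t ∈ Fᶜ := hγ.mem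
  refine ⟨?_, ?_, ?_⟩
  · have hid : ContinuousLinearMap.id ℝ V ∈ Frm M z (γ 0) := by
      rw [hγ.src]
      exact P1Aux.id_mem M z
    obtain ⟨g, hg0, hgc, hgm⟩ := hL ℂ (V →L[ℝ] V) Fᶜ (Frm M z) hLS γ hγ.cont.continuousOn hmem
      (ContinuousLinearMap.id ℝ V) hid
    have hch : ∀ t : ℝ, ∃ T' : V ≃ₗ[ℝ] V, t ∈ Icc (0:ℝ) 1 →
        cl T' = g t ∧ T' '' M.L z = M.L (γ t) := by
      intro t
      by_cases ht : t ∈ Icc (0:ℝ) 1
      · obtain ⟨T', h1, h2⟩ := hgm t ht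
        exact ⟨T', fun _ => ⟨h1, h2⟩⟩
      · exact ⟨LinearEquiv.refl ℝ V, fun h => absurd h ht⟩
    choose φ hφ using hch
    refine ⟨φ, (hE V F hfin M γ z z' hγ φ).2 ⟨?_, ?_, ?_⟩⟩
    · intro v
      have h := (hφ 0 ⟨le_refl 0, zero_le_one⟩).1
      rw [← P1Aux.cl_apply (φ 0) v, h, hg0]
      rfl
    · exact hgc.congr fun t ht => (hφ t ht).1
    · intro t ht
      exact (hφ t ht).2
  · intro φ φ' h h' t ht v
    obtain ⟨h0, hc, hl⟩ := (hE V F hfin M γ z z' hγ φ).1 h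
    obtain ⟨h0', hc', hl'⟩ := (hE V F hfin M γ z z' hγ φ').1 h'
    have hst : cl (φ 0) = cl (φ' 0) := by
      ext v
      rw [P1Aux.cl_apply, P1Aux.cl_apply, h0, h0']
    have heq := hU ℂ (V →L[ℝ] V) Fᶜ (Frm M z) hLS γ (fun t => cl (φ t)) (fun t => cl (φ' t)) 0 1
      hγ.cont.continuousOn hmem hc hc' (fun t ht => ⟨φ t, rfl, hl t ht⟩)
      (fun t ht => ⟨φ' t, rfl, hl' t ht⟩) 0 ⟨le_refl 0, zero_le_one⟩ hst t ht
    have heq' : cl (φ t) = cl (φ' t) := heq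
    rw [← P1Aux.cl_apply (φ t) v, heq', P1Aux.cl_apply]
  · intro φ h t ht
    exact ((hE V F hfin M γ z z' hγ φ).1 h).2.2 t ht

end TATE.PA
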