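import Pool.Agent.Lib.TATE.PA.Spec

/-!
# PROJECT TATE, package PA: avoiding a countable set
-/

set_option autoImplicit false

open Topology Metric Set

noncomputable section

namespace TATE.PA

theorem tPA2 : S_FrL → S_Eqv → S_Rch → S_Mov → S_Con → StmtPA2 := by
  intro hFrL hEqv hRch hMov hCon V _ _ _ F hF M D hD γ z z' hγ hz hz' φ hφ
  have hzF : z ∉ F := by
    have h := hγ.mem 0 ⟨le_rfl, zero_le_one⟩
    rwa [hγ.src] at h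
  have hz'F : z' ∉ F := by
    have h := hγ.mem 1 ⟨zero_le_one, le_rfl⟩
    rwa [hγ.tgt] at h
  obtain ⟨h0, hc, hl⟩ := (hEqv V F hF M γ z z' hγ φ).mp hφ
  have hLS := hFrL V F hF M z hzF
  have hreach : Reach Fᶜ (Frm M z) (γ 0, cl (φ 0)) (γ 1, cl (φ 1)) :=
    hRch (V →L[ℝ] V) Fᶜ (Frm M z) hLS γ (fun t => cl (φ t)) hγ.cont.continuousOn hγ.mem hc
      (fun t ht => ⟨φ t, rfl, hl t ht⟩)
  rw [hγ.src, hγ.tgt] at hreach
  have hmem : cl (φ 0) ∈ Frm M z z := by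
    refine ⟨φ 0, rfl, ?_⟩
    have h := hl 0 ⟨le_rfl, zero_le_one⟩
    rwa [hγ.src] at h
  have hm := hMov (V →L[ℝ] V) Fᶜ (Frm M z) hLS D hD z hzF hz z' hz' (cl (φ 0)) hmem
    (cl (φ 1)) hreach
  obtain ⟨γ', g, hc', hs', ht', hm', hg, hg0, hg1, hgm⟩ :=
    hCon (V →L[ℝ] V) (Fᶜ \ D) (Frm M z) (z, cl (φ 0)) (z', cl (φ 1)) ⟨hzF, hz⟩ hmem hm
  have hex : ∀ t : ℝ, ∃ T' : V ≃ₗ[ℝ] V,
      t ∈ Icc (0 : ℝ) 1 → cl T' = g t ∧ T' '' M.L z = M.L (γ' t) := by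
    intro t
    by_cases ht : t ∈ Icc (0 : ℝ) 1
    · obtain ⟨T', h1, h2⟩ := hgm t ht
      exact ⟨T', fun _ => ⟨h1, h2⟩⟩
    · exact ⟨LinearEquiv.refl ℝ V, fun h => absurd h ht⟩
  choose φ' hφ' using hex
  have hap : ∀ T T' : V ≃ₗ[ℝ] V, cl T = cl T' → ∀ v, T v = T' v := by
    intro T T' h v
    exact congrArg (fun S : V →L[ℝ] V => S v) h
  have hp : IsPth F γ' z z' := ⟨hc', hs', ht', fun t ht => (hm' t ht).1⟩
  have hp2 : IsPth (F ∪ D) γ' z z' :=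
    ⟨hc', hs', ht', fun t ht h => h.elim (hm' t ht).1 (hm' t ht).2⟩
  refine ⟨γ', φ', hp2, (hEqv V F hF M γ' z z' hp φ').mpr ⟨?_, ?_, ?_⟩, ?_⟩
  · intro v
    have h1 := (hφ' 0 ⟨le_rfl, zero_le_one⟩).1
    rw [hg0] at h1
    rw [hap _ _ h1, h0]
  · exact hg.congr fun t ht => (hφ' t ht).1
  · exact fun t ht => (hφ' t ht).2
  · intro v
    have h1 := (hφ' 1 ⟨zero_le_one, le_rfl⟩).1
    rw [hg1] at h1
    exact hap _ _ h1 v

end TATE.PA
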