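import Pool.Agent.Lib.TATE.PA.Spec

/-!
# PROJECT TATE, package PA: flatness along paths
-/

set_option autoImplicit false

open Topology Metric Set

noncomputable section

namespace TATE.PA

namespace P4Aux

variable {V : Type} [NormedAddCommGroup V] [NormedSpace ℂ V]

theorem psh_apply {d : ℕ} (φ : V →ₗ[ℝ] V) (c : Cl V d) (a : Fin d → (V →ₗ[ℝ] ℂ)) :
    psh φ c a = c fun i => a i ∘ₗ φ := rfl

theorem psh_comp {d : ℕ} (τ φ ψ : V ≃ₗ[ℝ] V) (h : ∀ v, ψ v = τ (φ v)) (c : Cl V d) :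
    psh (ψ : V →ₗ[ℝ] V) c = psh (τ : V →ₗ[ℝ] V) (psh (φ : V →ₗ[ℝ] V) c) := by
  ext a
  rw [psh_apply, psh_apply, psh_apply]
  refine congrArg c (funext fun i => LinearMap.ext fun v => ?_)
  simp only [LinearMap.comp_apply, LinearEquiv.coe_coe, h]

theorem comp_symm {d : ℕ} (τ : V ≃ₗ[ℝ] V) (a : Fin d → (V →ₗ[ℝ] ℂ)) :
    (fun i => (a i ∘ₗ (τ.symm : V →ₗ[ℝ] V)) ∘ₗ (τ : V →ₗ[ℝ] V)) = a := by
  funext i
  ext v
  simp only [LinearMap.comp_apply, LinearEquiv.coe_coe, LinearEquiv.symm_apply_apply]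

theorem psh_inj {d : ℕ} (τ : V ≃ₗ[ℝ] V) (c c' : Cl V d)
    (h : psh (τ : V →ₗ[ℝ] V) c = psh (τ : V →ₗ[ℝ] V) c') : c = c' := by
  ext a
  have h1 := congrArg (fun x : Cl V d => x fun i => a i ∘ₗ (τ.symm : V →ₗ[ℝ] V)) h
  simp only [psh_apply] at h1
  rwa [comp_symm τ a] at h1

theorem step {d : ℕ} (τ φ ψ : V ≃ₗ[ℝ] V) (h : ∀ v, ψ v = τ (φ v)) (c : Cl V d)
    (O O' : Set (Cl V d)) (hO : O' = psh (τ : V →ₗ[ℝ] V) '' O)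
    (hJ : ∀ c ∈ O, JC (τ : V →ₗ[ℝ] V) c) :
    (psh (φ : V →ₗ[ℝ] V) c ∈ O ∧ JC (φ : V →ₗ[ℝ] V) c) ↔
      (psh (ψ : V →ₗ[ℝ] V) c ∈ O' ∧ JC (ψ : V →ₗ[ℝ] V) c) := by
  have hc := psh_comp τ φ ψ h c
  have ha : ∀ a : Fin d → (V →ₗ[ℝ] ℂ), (fun i => a i ∘ₗ (ψ : V →ₗ[ℝ] V)) =
      fun i => (a i ∘ₗ (τ : V →ₗ[ℝ] V)) ∘ₗ (φ : V →ₗ[ℝ] V) := by
    intro a
    funext i
    ext v
    simp only [LinearMap.comp_apply, LinearEquiv.coe_coe, h]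
  constructor
  · rintro ⟨h1, h2⟩
    refine ⟨?_, fun a => ?_⟩
    · rw [hc, hO]
      exact mem_image_of_mem _ h1
    · rw [hc, hJ _ h1 a, h2, ha a]
  · rintro ⟨h1, h2⟩
    have h3 : psh (φ : V →ₗ[ℝ] V) c ∈ O := by
      rw [hc, hO] at h1
      obtain ⟨c2, h4, h5⟩ := h1
      rwa [← psh_inj τ _ _ h5]
    refine ⟨h3, fun a => ?_⟩
    have h6 := hJ _ h3 fun i => a i ∘ₗ (τ.symm : V →ₗ[ℝ] V)
    rw [comp_symm τ a, ← hc, h2, ha] at h6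
    rw [← h6]
    refine congrArg (der (jm V) c) (funext fun i => ?_)
    exact congrArg (fun x => x ∘ₗ (φ : V →ₗ[ℝ] V)) (congrFun (comp_symm τ a) i)

end P4Aux

theorem tPA4 : StmtPA4 := by
  intro hFP V _ _ _ F hF M d O hO γ z z' hγ φ hφ c hc
  have key : (psh (φ 0 : V →ₗ[ℝ] V) c ∈ O (γ 0) ∧ JC (φ 0 : V →ₗ[ℝ] V) c) ↔
      (psh (φ 1 : V →ₗ[ℝ] V) c ∈ O (γ 1) ∧ JC (φ 1 : V →ₗ[ℝ] V) c) := by
    refine isPreconnected_Icc.induction₂ (fun t t' =>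
      (psh (φ t : V →ₗ[ℝ] V) c ∈ O (γ t) ∧ JC (φ t : V →ₗ[ℝ] V) c) ↔
        (psh (φ t' : V →ₗ[ℝ] V) c ∈ O (γ t') ∧ JC (φ t' : V →ₗ[ℝ] V) c)) ?_
      (fun _ _ _ _ _ _ h1 h2 => h1.trans h2) (fun _ _ _ _ h => h.symm)
      (left_mem_Icc.2 zero_le_one) (right_mem_Icc.2 zero_le_one)
    intro t ht
    obtain ⟨ε, hε, h⟩ := hφ.loc t ht
    filter_upwards [self_mem_nhdsWithin,
      mem_nhdsWithin_of_mem_nhds (ball_mem_nhds t hε)] with t' h1 h2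
    obtain ⟨h3, h4⟩ := h t' h1 h2
    exact P4Aux.step (M.τ (γ t) (γ t')) (φ t) (φ t') h4 c _ _
      (hO.flat (γ t) (hγ.mem t ht) (γ t') h3) fun c' hc' =>
        hFP V F hF M d O hO (γ t) (hγ.mem t ht) (γ t') h3 c' hc'
  have h0 : psh (φ 0 : V →ₗ[ℝ] V) c = c := by
    ext a
    rw [P4Aux.psh_apply]
    refine congrArg c (funext fun i => LinearMap.ext fun v => ?_)
    simp only [LinearMap.comp_apply, LinearEquiv.coe_coe, hφ.zero]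
  rw [hγ.src, hγ.tgt] at key
  refine key.1 ⟨h0.symm ▸ hc, fun a => ?_⟩
  rw [h0]
  refine congrArg (der (jm V) c) (funext fun i => LinearMap.ext fun v => ?_)
  simp only [LinearMap.comp_apply, LinearEquiv.coe_coe, hφ.zero]

end TATE.PA
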