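import Pool.Agent.Lib.TATE.PA.Spec

/-!
# PROJECT TATE, package PA, statement P5

The interface statement `StmtPA5`: the transport along `γ` followed by the inverse of `γ'` is
`(φ' 1)⁻¹ φ 1`.
-/

set_option autoImplicit false

open Topology Metric Set

noncomputable section

namespace TATE.PA

namespace P5Aux

theorem cat_left {X : Type} (γ γ' : ℝ → X) {t : ℝ} (h : t ≤ 1 / 2) :
    cat γ γ' t = γ (2 * t) := by
  unfold cat
  rw [if_pos h]

theorem cat_right {X : Type} (γ γ' : ℝ → X) {t : ℝ} (h : ¬ t ≤ 1 / 2) :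
    cat γ γ' t = γ' (2 - 2 * t) := by
  unfold cat
  rw [if_neg h]

theorem cat_path {F : Set ℂ} {γ γ' : ℝ → ℂ} {z z' : ℂ} (h : IsPth F γ z z')
    (h' : IsPth F γ' z z') : IsPth F (cat γ γ') z z := by
  constructor
  · have e : cat γ γ' = fun t : ℝ => if t ≤ 1 / 2 then γ (2 * t) else γ' (2 - 2 * t) := by
      funext t
      rfl
    rw [e]
    refine Continuous.if_le (h.cont.comp (by fun_prop)) (h'.cont.comp (by fun_prop))
      continuous_id continuous_const ?_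
    intro t ht
    have ht' : t = 1 / 2 := ht
    subst ht'
    have e1 : (2 : ℝ) * (1 / 2) = 1 := by norm_num
    have e2 : (2 : ℝ) - 2 * (1 / 2) = 1 := by norm_num
    rw [e2, e1, h.tgt, h'.tgt]
  · rw [cat_left γ γ' (by norm_num), mul_zero, h.src]
  · rw [cat_right γ γ' (by norm_num)]
    have e2 : (2 : ℝ) - 2 * 1 = 0 := by norm_num
    rw [e2, h'.src]
  · intro t ht
    by_cases hh : t ≤ 1 / 2
    · rw [cat_left γ γ' hh]
      exact h.mem _ ⟨by linarith [ht.1], by linarith⟩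
    · rw [cat_right γ γ' hh]
      push Not at hh
      exact h'.mem _ ⟨by linarith [ht.2], by linarith⟩

section
variable {V : Type} [NormedAddCommGroup V] [NormedSpace ℂ V] [FiniteDimensional ℂ V]

theorem cl_apply (T : V ≃ₗ[ℝ] V) (v : V) : cl T v = T v := rfl

theorem cl_trans (S T : V ≃ₗ[ℝ] V) : cl (S.trans T) = (cl T).comp (cl S) := by
  ext v
  rfl

/-- The candidate for the transport along `cat γ γ'`. -/
def chi (φ φ' : ℝ → (V ≃ₗ[ℝ] V)) (S : V ≃ₗ[ℝ] V) (t : ℝ) : V ≃ₗ[ℝ] V :=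
  if t ≤ 1 / 2 then φ (2 * t) else S.trans (φ' (2 - 2 * t))

omit [FiniteDimensional ℂ V] in
theorem chi_left (φ φ' : ℝ → (V ≃ₗ[ℝ] V)) (S : V ≃ₗ[ℝ] V) {t : ℝ} (h : t ≤ 1 / 2) :
    chi φ φ' S t = φ (2 * t) := by
  unfold chi
  rw [if_pos h]

omit [FiniteDimensional ℂ V] in
theorem chi_right (φ φ' : ℝ → (V ≃ₗ[ℝ] V)) (S : V ≃ₗ[ℝ] V) {t : ℝ} (h : ¬ t ≤ 1 / 2) :
    chi φ φ' S t = S.trans (φ' (2 - 2 * t)) := by
  unfold chi
  rw [if_neg h]

theorem chi_cont {φ φ' : ℝ → (V ≃ₗ[ℝ] V)} {S : V ≃ₗ[ℝ] V}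
    (hc : ContinuousOn (fun t => cl (φ t)) (Icc 0 1))
    (hc' : ContinuousOn (fun t => cl (φ' t)) (Icc 0 1))
    (hS : S.trans (φ' 1) = φ 1) :
    ContinuousOn (fun t => cl (chi φ φ' S t)) (Icc 0 1) := by
  have e : Icc (0 : ℝ) 1 = Icc 0 (1 / 2) ∪ Icc (1 / 2) 1 := by
    rw [Icc_union_Icc_eq_Icc (by norm_num) (by norm_num)]
  rw [e]
  refine ContinuousOn.union_of_isClosed ?_ ?_ isClosed_Icc isClosed_Icc
  · have h1 : ContinuousOn (fun t : ℝ => cl (φ (2 * t))) (Icc 0 (1 / 2)) := by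
      refine hc.comp (f := fun t : ℝ => 2 * t) (by fun_prop) ?_
      intro t ht
      exact ⟨by linarith [ht.1], by linarith [ht.2]⟩
    refine h1.congr ?_
    intro t ht
    show cl (chi φ φ' S t) = cl (φ (2 * t))
    rw [chi_left φ φ' S ht.2]
  · have h1 : ContinuousOn (fun t : ℝ => (cl (φ' (2 - 2 * t))).comp (cl S)) (Icc (1 / 2) 1) := by
      have h2 : ContinuousOn (fun t : ℝ => cl (φ' (2 - 2 * t))) (Icc (1 / 2) 1) := by
        refine hc'.comp (f := fun t : ℝ => 2 - 2 * t) (by fun_prop) ?_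
        intro t ht
        exact ⟨by linarith [ht.2], by linarith [ht.1]⟩
      exact h2.clm_comp continuousOn_const
    refine h1.congr ?_
    intro t ht
    show cl (chi φ φ' S t) = (cl (φ' (2 - 2 * t))).comp (cl S)
    by_cases hh : t ≤ 1 / 2
    · have ht' : t = 1 / 2 := le_antisymm hh ht.1
      subst ht'
      rw [chi_left φ φ' S hh]
      have e1 : (2 : ℝ) * (1 / 2) = 1 := by norm_num
      have e2 : (2 : ℝ) - 2 * (1 / 2) = 1 := by norm_num
      rw [e2, e1, ← cl_trans, hS]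
    · rw [chi_right φ φ' S hh, cl_trans]

end

end P5Aux

open P5Aux in
/-- **PA5**. -/
theorem tPA5 : S_FrL → S_Unq → S_Eqv → StmtPA5 := by
  intro hL hU hE V _ _ _ F hF M γ γ' z z' hγ hγ' φ φ' ψ hφ hφ' hψ
  have hz : z ∉ F := by
    have := hγ.mem 0 ⟨le_rfl, zero_le_one⟩
    rwa [hγ.src] at this
  have hC : IsPth F (cat γ γ') z z := cat_path hγ hγ'
  refine ⟨hC, ?_⟩
  obtain ⟨h0, hc, hl⟩ := (hE V F hF M γ z z' hγ φ).1 hφ
  obtain ⟨h0', hc', hl'⟩ := (hE V F hF M γ' z z' hγ' φ').1 hφ'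
  obtain ⟨k0, kc, kl⟩ := (hE V F hF M (cat γ γ') z z hC ψ).1 hψ
  obtain ⟨S, hSdef⟩ : ∃ S : V ≃ₗ[ℝ] V, S = (φ 1).trans (φ' 1).symm := ⟨_, rfl⟩
  have hS : S.trans (φ' 1) = φ 1 := by
    rw [hSdef]
    ext v
    simp
  have hSL : S '' M.L z = M.L z := by
    have e1 : φ 1 '' M.L z = M.L z' := by
      have := hl 1 ⟨zero_le_one, le_rfl⟩
      rwa [hγ.tgt] at this
    have e2 : φ' 1 '' M.L z = M.L z' := by
      have := hl' 1 ⟨zero_le_one, le_rfl⟩
      rwa [hγ'.tgt] at this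
    have e3 : φ' 1 '' (S '' M.L z) = φ' 1 '' M.L z := by
      rw [e2, ← e1, image_image]
      refine image_congr ?_
      intro v _
      have := congrArg (fun T : V ≃ₗ[ℝ] V => T v) hS
      exact this
    exact (φ' 1).injective.image_injective e3
  have hχc := chi_cont hc hc' hS
  have hχL : ∀ t ∈ Icc (0 : ℝ) 1, chi φ φ' S t '' M.L z = M.L (cat γ γ' t) := by
    intro t ht
    by_cases hh : t ≤ 1 / 2
    · rw [chi_left φ φ' S hh, cat_left γ γ' hh]
      exact hl _ ⟨by linarith [ht.1], by linarith⟩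
    · rw [chi_right φ φ' S hh, cat_right γ γ' hh]
      push Not at hh
      have e4 := hl' (2 - 2 * t) ⟨by linarith [ht.2], by linarith⟩
      rw [← e4]
      conv_rhs => rw [← hSL]
      rw [image_image]
      rfl
  have hres := hU ℂ (V →L[ℝ] V) Fᶜ (Frm M z) (hL V F hF M z hz) (cat γ γ')
    (fun t => cl (ψ t)) (fun t => cl (chi φ φ' S t)) 0 1 hC.cont.continuousOn
    (fun t ht => hC.mem t ht) kc hχc (fun t ht => ⟨ψ t, rfl, kl t ht⟩)
    (fun t ht => ⟨chi φ φ' S t, rfl, hχL t ht⟩) 0 ⟨le_rfl, zero_le_one⟩ (by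
      show cl (ψ 0) = cl (chi φ φ' S 0)
      ext v
      rw [cl_apply, cl_apply, k0, chi_left φ φ' S (by norm_num), mul_zero, h0])
    1 ⟨zero_le_one, le_rfl⟩
  intro v
  have h1 : ψ 1 v = S v := by
    have h2 := congrArg (fun T : V →L[ℝ] V => T v) hres
    have h3 : cl (ψ 1) v = cl (chi φ φ' S 1) v := h2
    rw [cl_apply, cl_apply, chi_right φ φ' S (by norm_num)] at h3
    rw [h3]
    have e2 : (2 : ℝ) - 2 * 1 = 0 := by norm_num
    rw [e2]
    exact h0' (S v)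
  rw [h1]
  have := congrArg (fun T : V ≃ₗ[ℝ] V => T v) hS
  exact this

end TATE.PA
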