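import Pool.Agent.Lib.TATE.PA.Spec

/-!
# PROJECT TATE, package PA: pull back of a local system
-/

set_option autoImplicit false

open Topology Metric Set

noncomputable section

namespace TATE.PA

theorem uPul : S_Pul := by
  intro X Y W _ _ _ U R h hLS hh
  refine ⟨hLS.isOpen.preimage hh, fun y hy => hLS.ctble (h y) hy, ?_⟩
  intro y0 hy0
  obtain ⟨N, hN, hz0, hNU, τ, τ', h1, h2, h3, h4⟩ := hLS.triv (h y0) hy0
  refine ⟨h ⁻¹' N, hN.preimage hh, hz0, preimage_mono hNU, fun y => τ (h y), fun y => τ' (h y),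
    h1, fun y hy => h2 (h y) hy, ?_, ?_⟩
  · intro w hw
    exact (h3 w hw).comp hh.continuousOn (fun y hy => hy)
  · have h5 : Continuous (fun q : Y × W => (h q.1, q.2)) :=
      (hh.comp continuous_fst).prodMk continuous_snd
    exact h4.comp h5.continuousOn (fun q hq => hq)

end TATE.PA
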