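import Pool.Agent.Lib.TATE.PA.Spec

/-!
# PROJECT TATE, package PA: from a continuous path to segments
-/

set_option autoImplicit false

open Topology Metric Set

noncomputable section

namespace TATE.PA

namespace RchAux

/-- A locally constant predicate on `[0, 1]`. -/
theorem icc_ind (P : ℝ → Prop) (h0 : P 0)
    (h : ∀ t1 ∈ Icc (0:ℝ) 1, ∃ δ > 0, ∀ t ∈ Icc (0:ℝ) 1, |t - t1| < δ → (P t1 ↔ P t)) : P 1 := by
  haveI : PreconnectedSpace (Icc (0:ℝ) 1) :=
    Subtype.preconnectedSpace isPreconnected_Icc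
  let S : Set (Icc (0:ℝ) 1) := {t | P t}
  have hloc : ∀ t1 : Icc (0:ℝ) 1, ∃ O : Set (Icc (0:ℝ) 1), IsOpen O ∧ t1 ∈ O ∧
      ∀ t ∈ O, (P t1 ↔ P t) := by
    intro t1
    obtain ⟨δ, hδ, H⟩ := h t1 t1.2
    refine ⟨ball t1 δ, isOpen_ball, mem_ball_self hδ, fun t ht => H t t.2 ?_⟩
    have : dist t t1 < δ := ht
    rwa [Subtype.dist_eq, Real.dist_eq] at this
  have h1 : IsOpen S := by
    rw [isOpen_iff_forall_mem_open]
    intro t1 ht1
    obtain ⟨O, hO, hm, H⟩ := hloc t1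
    exact ⟨O, fun t ht => (H t ht).1 ht1, hO, hm⟩
  have h2 : IsOpen Sᶜ := by
    rw [isOpen_iff_forall_mem_open]
    intro t1 ht1
    obtain ⟨O, hO, hm, H⟩ := hloc t1
    exact ⟨O, fun t ht hP => ht1 ((H t ht).2 hP), hO, hm⟩
  have h3 : IsClopen S := ⟨isOpen_compl_iff.1 h2, h1⟩
  have h00 : (⟨0, by simp⟩ : Icc (0:ℝ) 1) ∈ S := h0
  rcases isClopen_iff.1 h3 with h4 | h4
  · rw [h4] at h00
    exact absurd h00 (Set.notMem_empty _)
  · have : (⟨1, by simp⟩ : Icc (0:ℝ) 1) ∈ S := by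
      rw [h4]
      exact mem_univ _
    exact this

end RchAux

/-- **Rch**: from a continuous path to segments. -/
theorem uRch : S_Unq → S_Lft → S_Rch := by
  intro hUnq hLft W _ U R hLS γ g hγ hγU hg hgR
  obtain ⟨-, -, -, -, hrev, -⟩ := hLft W U R hLS
  refine RchAux.icc_ind (fun t => Reach U R (γ 0, g 0) (γ t, g t)) Relation.ReflTransGen.refl ?_
  intro t1 ht1
  obtain ⟨N, hNo, hzN, hNU, τ, τ', h1, h2, h3, -⟩ := hLS.triv (γ t1) (hγU t1 ht1)
  obtain ⟨r, hr, hrN⟩ := Metric.isOpen_iff.1 hNo (γ t1) hzN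
  obtain ⟨δ, hδ, H⟩ := Metric.continuousOn_iff.1 hγ t1 ht1 r hr
  refine ⟨δ, hδ, fun t ht htt => ?_⟩
  have hball : ∀ u ∈ Icc (min t1 t) (max t1 t), u ∈ Icc (0:ℝ) 1 ∧ γ u ∈ ball (γ t1) r := by
    intro u hu
    have hu01 : u ∈ Icc (0:ℝ) 1 :=
      ⟨le_trans (le_min ht1.1 ht.1) hu.1, le_trans hu.2 (max_le ht1.2 ht.2)⟩
    refine ⟨hu01, H u hu01 ?_⟩
    rw [Real.dist_eq]
    rcases le_total t1 t with h | h
    · rw [min_eq_left h, max_eq_right h] at hu
      rw [abs_of_nonneg (by linarith [hu.1])]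
      have := lt_of_le_of_lt (le_abs_self _) htt
      linarith [hu.2]
    · rw [min_eq_right h, max_eq_left h] at hu
      rw [abs_of_nonpos (by linarith [hu.2])]
      have h5 := lt_of_le_of_lt (neg_le_abs (t - t1)) htt
      linarith [hu.1]
  have hw : g t1 ∈ R (γ t1) := hgR t1 ht1
  have hmem1 : t1 ∈ Icc (min t1 t) (max t1 t) := ⟨min_le_left _ _, le_max_left _ _⟩
  have hmem2 : t ∈ Icc (min t1 t) (max t1 t) := ⟨min_le_right _ _, le_max_right _ _⟩
  have hsub : Icc (min t1 t) (max t1 t) ⊆ Icc (0:ℝ) 1 := fun u hu => (hball u hu).1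
  have heq := hUnq ℂ W U R hLS γ (fun u => τ (γ u) (g t1)) g (min t1 t) (max t1 t)
    (hγ.mono hsub) (fun u hu => hγU u (hsub hu))
    ((h3 _ hw).comp (hγ.mono hsub) (fun u hu => hrN (hball u hu).2)) (hg.mono hsub)
    (fun u hu => (h2 _ (hrN (hball u hu).2)).1 hw) (fun u hu => hgR u (hsub hu))
    t1 hmem1 (h1 _ hw) t hmem2
  have hseg : segment ℝ (γ t1) (γ t) ⊆ N :=
    ((convex_ball (γ t1) r).segment_subset (mem_ball_self hr) (hball t hmem2).2).trans hrN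
  have hlm : ∀ u ∈ Icc (0:ℝ) 1, AffineMap.lineMap (γ t1) (γ t) u ∈ N := by
    intro u hu
    apply hseg
    rw [segment_eq_image_lineMap]
    exact ⟨u, hu, rfl⟩
  have hstep : Step U R (γ t1, g t1) (γ t, g t) := by
    refine ⟨hseg.trans hNU, fun u => τ (AffineMap.lineMap (γ t1) (γ t) u) (g t1), ?_, ?_, ?_, ?_⟩
    · exact (h3 _ hw).comp AffineMap.lineMap_continuous.continuousOn hlm
    · simpa using h1 _ hw
    · simpa using heq
    · intro u hu
      exact (h2 _ (hlm u hu)).1 hw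
  constructor
  · intro h
    exact Relation.ReflTransGen.tail h hstep
  · intro h
    exact Relation.ReflTransGen.trans h (hrev _ _ (Relation.ReflTransGen.single hstep))

end TATE.PA
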