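import Pool.Agent.Lib.TATE.PA.Spec

/-!
# Right multiplication of frames and local steps
-/

set_option autoImplicit false

open Topology Metric Set

noncomputable section

namespace TATE.PA

namespace RmuAux

variable {V : Type} [NormedAddCommGroup V] [NormedSpace ℂ V] [FiniteDimensional ℂ V] {F : Set ℂ}

theorem cl_trans (S T : V ≃ₗ[ℝ] V) : cl (S.trans T) = (cl T).comp (cl S) := by
  ext v
  rfl

theorem cl_apply (T : V ≃ₗ[ℝ] V) (v : V) : cl T v = T v := rfl

omit [FiniteDimensional ℂ V] in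
theorem image_trans (S T : V ≃ₗ[ℝ] V) (A : Set V) : (S.trans T) '' A = T '' (S '' A) := by
  rw [Set.image_image]
  rfl

theorem frm_comp (M : Fml V F) (z0 z : ℂ) (T S : V →L[ℝ] V) (hT : T ∈ Frm M z0 z)
    (hS : S ∈ Frm M z0 z0) : T.comp S ∈ Frm M z0 z := by
  obtain ⟨T', rfl, hT'⟩ := hT
  obtain ⟨S', rfl, hS'⟩ := hS
  exact ⟨S'.trans T', cl_trans S' T', by rw [image_trans, hS', hT']⟩

theorem step_comp (M : Fml V F) (z0 : ℂ) (U : Set ℂ) (S : V →L[ℝ] V) (hS : S ∈ Frm M z0 z0)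
    (x y : ℂ × (V →L[ℝ] V)) (h : Step U (Frm M z0) x y) :
    Step U (Frm M z0) (x.1, x.2.comp S) (y.1, y.2.comp S) := by
  obtain ⟨h1, g, hg, h0, h2, h3⟩ := h
  refine ⟨h1, fun t => (g t).comp S, ?_, ?_, ?_, ?_⟩
  · exact hg.clm_comp continuousOn_const
  · change (g 0).comp S = _
    rw [h0]
  · change (g 1).comp S = _
    rw [h2]
  · intro t ht
    exact frm_comp M z0 _ _ S (h3 t ht) hS

theorem frm_tau (M : Fml V F) (z0 z : ℂ) (hz : z ∉ F) (z' : ℂ) (hz' : z' ∈ ball z (M.r z))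
    (T : V →L[ℝ] V) (hT : T ∈ Frm M z0 z) : (cl (M.τ z z')).comp T ∈ Frm M z0 z' := by
  obtain ⟨T', rfl, hT'⟩ := hT
  exact ⟨T'.trans (M.τ z z'), cl_trans T' _, by rw [image_trans, hT', M.lat z hz z' hz']⟩

theorem cont_tau (M : Fml V F) (z : ℂ) (hz : z ∉ F) :
    ContinuousOn (fun z' => cl (M.τ z z')) (ball z (M.r z)) := by
  have : FiniteDimensional ℝ V := FiniteDimensional.complexToReal V
  rw [continuousOn_clm_apply]
  intro v
  exact (M.hol z hz v).continuousOn

theorem step_tau (M : Fml V F) (z0 z : ℂ) (hz : z ∉ F) (z' : ℂ) (hz' : z' ∈ ball z (M.r z))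
    (T : V →L[ℝ] V) (hT : T ∈ Frm M z0 z) :
    Step Fᶜ (Frm M z0) (z, T) (z', (cl (M.τ z z')).comp T) := by
  have h0 : z ∈ ball z (M.r z) := mem_ball_self (M.rpos z hz)
  have hseg : ∀ t ∈ Icc (0:ℝ) 1, AffineMap.lineMap z z' t ∈ ball z (M.r z) := by
    intro t ht
    exact (convex_ball z (M.r z)).segment_subset h0 hz' (by
      rw [segment_eq_image_lineMap]
      exact ⟨t, ht, rfl⟩)
  refine ⟨?_, fun t => (cl (M.τ z (AffineMap.lineMap z z' t))).comp T, ?_, ?_, ?_, ?_⟩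
  · exact fun w hw => M.dom z hz w ((convex_ball z (M.r z)).segment_subset h0 hz' hw)
  · have h1 : ContinuousOn (fun t : ℝ => cl (M.τ z (AffineMap.lineMap z z' t))) (Icc 0 1) := by
      refine (cont_tau M z hz).comp (f := fun t : ℝ => AffineMap.lineMap z z' t) ?_ hseg
      exact AffineMap.lineMap_continuous.continuousOn
    exact h1.clm_comp continuousOn_const
  · change (cl (M.τ z (AffineMap.lineMap z z' (0:ℝ)))).comp T = T
    rw [AffineMap.lineMap_apply_zero]
    ext v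
    exact M.one z hz (T v)
  · change (cl (M.τ z (AffineMap.lineMap z z' (1:ℝ)))).comp T = _
    rw [AffineMap.lineMap_apply_one]
  · intro t ht
    exact frm_tau M z0 z hz _ (hseg t ht) T hT

end RmuAux

theorem uRmu : S_Rmu := by
  intro V _ _ _ F _ M z0 _
  refine ⟨?_, ?_⟩
  · intro U a b T T' S hS h
    exact h.lift (fun x : ℂ × (V →L[ℝ] V) => (x.1, x.2.comp S))
      (fun x y hxy => RmuAux.step_comp M z0 U S hS x y hxy)
  · intro z hz z' hz' T hT
    exact RmuAux.step_tau M z0 z hz z' hz' T hT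

end TATE.PA
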