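import Pool.Agent.Lib.TATE.PA.Spec

/-!
# PROJECT TATE, package PA: sections over a neighbourhood of a segment
-/

set_option autoImplicit false

open Topology Metric Set

noncomputable section

namespace TATE.PA

namespace TubAux

/-- Two continuous sections on a convex set which agree at one point are equal. -/
theorem uniq (hU : S_Unq) {E W : Type} [NormedAddCommGroup E] [NormedSpace ℝ E] [MetricSpace W]
    {U : Set E} {R : E → Set W} (hL : LS U R) {C : Set E} (hC : Convex ℝ C) (hCU : C ⊆ U)
    {s s' : E → W} (hs : ContinuousOn s C) (hs' : ContinuousOn s' C) (h : ∀ z ∈ C, s z ∈ R z)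
    (h' : ∀ z ∈ C, s' z ∈ R z) {z0 : E} (h0 : z0 ∈ C) (he : s z0 = s' z0) :
    ∀ z ∈ C, s z = s' z := by
  intro z hz
  have hm : ∀ t ∈ Icc (0 : ℝ) 1, AffineMap.lineMap z0 z t ∈ C := by
    intro t ht
    apply hC.segment_subset h0 hz
    rw [segment_eq_image_lineMap]
    exact ⟨t, ht, rfl⟩
  have hcl : ContinuousOn (fun t : ℝ => AffineMap.lineMap z0 z t) (Icc (0 : ℝ) 1) :=
    (AffineMap.lineMap_continuous).continuousOn
  have hq := hU E W U R hL (fun t => AffineMap.lineMap z0 z t)
    (fun t => s (AffineMap.lineMap z0 z t)) (fun t => s' (AffineMap.lineMap z0 z t)) 0 1 hcl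
    (fun t ht => hCU (hm t ht)) (hs.comp hcl (fun t ht => hm t ht))
    (hs'.comp hcl (fun t ht => hm t ht)) (fun t ht => h _ (hm t ht)) (fun t ht => h' _ (hm t ht))
    0 (by constructor <;> norm_num) (by simpa using he) 1 (by constructor <;> norm_num)
  simpa using hq

/-- The statement for the segment from `a` to `p t`. -/
def G {E W : Type} [NormedAddCommGroup E] [NormedSpace ℝ E] [MetricSpace W] (U : Set E)
    (R : E → Set W) (a b : E) (w : W) (t : ℝ) : Prop :=
  ∃ ρ > 0, thickening ρ (segment ℝ a (AffineMap.lineMap a b t)) ⊆ U ∧ ∃ σ : E → W, σ a = w ∧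
    ContinuousOn σ (thickening ρ (segment ℝ a (AffineMap.lineMap a b t))) ∧
    ∀ z ∈ thickening ρ (segment ℝ a (AffineMap.lineMap a b t)), σ z ∈ R z

theorem segp {E : Type} [NormedAddCommGroup E] [NormedSpace ℝ E] (a b : E) {t : ℝ} (ht : 0 ≤ t) {y : E}
    (hy : y ∈ segment ℝ a (AffineMap.lineMap a b t)) :
    ∃ s ∈ Icc (0 : ℝ) t, AffineMap.lineMap a b s = y := by
  rw [segment_eq_image_lineMap] at hy
  obtain ⟨u, hu, rfl⟩ := hy
  refine ⟨u * t, ⟨mul_nonneg hu.1 ht, ?_⟩, ?_⟩
  · calc u * t ≤ 1 * t := mul_le_mul_of_nonneg_right hu.2 ht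
      _ = t := one_mul t
  · rw [AffineMap.lineMap_lineMap_right]

theorem segm {E : Type} [NormedAddCommGroup E] [NormedSpace ℝ E] (a b : E) {s t : ℝ} (hs : 0 ≤ s)
    (hst : s ≤ t) :
    AffineMap.lineMap a b s ∈ segment ℝ a (AffineMap.lineMap a b t) := by
  rw [segment_eq_image_lineMap]
  rcases eq_or_lt_of_le hs with h | h
  · subst h
    exact ⟨0, ⟨le_refl _, zero_le_one⟩, by simp⟩
  · have ht : 0 < t := lt_of_lt_of_le h hst
    refine ⟨s / t, ⟨div_nonneg hs ht.le, (div_le_one ht).2 hst⟩, ?_⟩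
    rw [AffineMap.lineMap_lineMap_right]
    congr 1
    field_simp

theorem step (hU : S_Unq) {E W : Type} [NormedAddCommGroup E] [NormedSpace ℝ E] [MetricSpace W]
    {U : Set E} {R : E → Set W} (hL : LS U R) (a b : E) (w : W) (z1 : E) (hz1 : z1 ∈ U) :
    ∃ r > 0, ∀ t t' : ℝ, 0 ≤ t → 0 ≤ t' → AffineMap.lineMap a b t ∈ ball z1 (r / 4) →
      AffineMap.lineMap a b t' ∈ ball z1 (r / 4) → G U R a b w t → G U R a b w t' := by
  obtain ⟨N, hNo, hzN, hNU, τ, τ', hτ0, hττ, hτc, hτ'c⟩ := hL.triv z1 hz1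
  obtain ⟨r, hr, hrN⟩ := Metric.isOpen_iff.1 hNo z1 hzN
  refine ⟨r, hr, ?_⟩
  intro t t' ht ht' hpt hpt' hG
  obtain ⟨ρ, hρ, hρU, σ, hσa, hσc, hσR⟩ := hG
  rcases le_or_gt t' t with hle | hlt
  · -- restriction
    have hsub : segment ℝ a (AffineMap.lineMap a b t') ⊆ segment ℝ a (AffineMap.lineMap a b t) := by
      intro y hy
      obtain ⟨s, hs, rfl⟩ := segp a b ht' hy
      exact segm a b hs.1 (le_trans hs.2 hle)
    have hth := thickening_subset_of_subset ρ hsub
    exact ⟨ρ, hρ, hth.trans hρU, σ, hσa, hσc.mono hth, fun z hz => hσR z (hth hz)⟩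
  · -- extension
    have hρ0 : 0 < min ρ (r / 4) := lt_min hρ (by linarith)
    have hTsub : thickening (min ρ (r / 4)) (segment ℝ a (AffineMap.lineMap a b t)) ⊆
        thickening ρ (segment ℝ a (AffineMap.lineMap a b t)) :=
      thickening_mono (min_le_left _ _) _
    have hTconv : Convex ℝ (thickening (min ρ (r / 4)) (segment ℝ a (AffineMap.lineMap a b t))) :=
      (convex_segment a _).thickening _
    have hTo : IsOpen (thickening (min ρ (r / 4)) (segment ℝ a (AffineMap.lineMap a b t))) :=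
      isOpen_thickening
    have haT : a ∈ thickening (min ρ (r / 4)) (segment ℝ a (AffineMap.lineMap a b t)) :=
      self_subset_thickening hρ0 _ (left_mem_segment ℝ _ _)
    have hpT : AffineMap.lineMap a b t ∈
        thickening (min ρ (r / 4)) (segment ℝ a (AffineMap.lineMap a b t)) :=
      self_subset_thickening hρ0 _ (right_mem_segment ℝ _ _)
    have hptB : AffineMap.lineMap a b t ∈ ball z1 r := ball_subset_ball (by linarith) hpt
    have hptN : AffineMap.lineMap a b t ∈ N := hrN hptB
    have hσp : σ (AffineMap.lineMap a b t) ∈ R (AffineMap.lineMap a b t) := hσR _ (hTsub hpT)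
    have hw1 : τ' (AffineMap.lineMap a b t) (σ (AffineMap.lineMap a b t)) ∈ R z1 :=
      (hττ _ hptN).2.1 hσp
    have hs'c : ContinuousOn
        (fun z => τ z (τ' (AffineMap.lineMap a b t) (σ (AffineMap.lineMap a b t)))) (ball z1 r) :=
      (hτc _ hw1).mono hrN
    have hs'R : ∀ z ∈ ball z1 r,
        τ z (τ' (AffineMap.lineMap a b t) (σ (AffineMap.lineMap a b t))) ∈ R z :=
      fun z hz => (hττ z (hrN hz)).1 hw1
    have hag : σ (AffineMap.lineMap a b t) =
        τ (AffineMap.lineMap a b t) (τ' (AffineMap.lineMap a b t) (σ (AffineMap.lineMap a b t))) :=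
      ((hττ _ hptN).2.2.2 _ hσp).symm
    have heq : ∀ z ∈ thickening (min ρ (r / 4)) (segment ℝ a (AffineMap.lineMap a b t)) ∩ ball z1 r,
        σ z = τ z (τ' (AffineMap.lineMap a b t) (σ (AffineMap.lineMap a b t))) := by
      apply uniq hU hL (hTconv.inter (convex_ball z1 r))
        (fun z hz => hρU (hTsub hz.1)) (hσc.mono (fun z hz => hTsub hz.1))
        (hs'c.mono (fun z hz => hz.2)) (fun z hz => hσR z (hTsub hz.1))
        (fun z hz => hs'R z hz.2) ⟨hpT, hptB⟩ hag
    have hcov : thickening (min ρ (r / 4)) (segment ℝ a (AffineMap.lineMap a b t')) ⊆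
        thickening (min ρ (r / 4)) (segment ℝ a (AffineMap.lineMap a b t)) ∪ ball z1 r := by
      intro z hz
      obtain ⟨y, hy, hzy⟩ := mem_thickening_iff.1 hz
      obtain ⟨s, hs, rfl⟩ := segp a b ht' hy
      rcases le_or_gt s t with h | h
      · left
        exact mem_thickening_iff.2 ⟨_, segm a b hs.1 h, hzy⟩
      · right
        have hoc : ((AffineMap.lineMap a b : ℝ →ᵃ[ℝ] E) ⁻¹' ball z1 (r / 4)).OrdConnected :=
          ((convex_ball z1 (r / 4)).affine_preimage _).ordConnected
        have hsb : AffineMap.lineMap a b s ∈ ball z1 (r / 4) :=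
          hoc.out (show t ∈ _ from hpt) (show t' ∈ _ from hpt') ⟨h.le, hs.2⟩
        rw [mem_ball] at hsb ⊢
        have h1 : dist z z1 ≤ dist z (AffineMap.lineMap a b s) + dist (AffineMap.lineMap a b s) z1 :=
          dist_triangle _ _ _
        have h2 : min ρ (r / 4) ≤ r / 4 := min_le_right _ _
        linarith
    classical
    refine ⟨min ρ (r / 4), hρ0, ?_, fun z => if z ∈ thickening (min ρ (r / 4))
      (segment ℝ a (AffineMap.lineMap a b t)) then σ z else
        τ z (τ' (AffineMap.lineMap a b t) (σ (AffineMap.lineMap a b t))), ?_, ?_, ?_⟩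
    · intro z hz
      rcases hcov hz with h | h
      · exact hρU (hTsub h)
      · exact hNU (hrN h)
    · show (if a ∈ _ then _ else _) = w
      rw [if_pos haT]
      exact hσa
    · intro z hz
      apply ContinuousAt.continuousWithinAt
      rcases hcov hz with h | h
      · have h1 : ContinuousAt σ z := (hσc.mono hTsub).continuousAt (hTo.mem_nhds h)
        apply h1.congr
        filter_upwards [hTo.mem_nhds h] with y hy
        rw [if_pos hy]
      · have h1 : ContinuousAt
          (fun z => τ z (τ' (AffineMap.lineMap a b t) (σ (AffineMap.lineMap a b t)))) z :=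
          hs'c.continuousAt (isOpen_ball.mem_nhds h)
        apply h1.congr
        filter_upwards [isOpen_ball.mem_nhds h] with y hy
        by_cases hyT : y ∈ thickening (min ρ (r / 4)) (segment ℝ a (AffineMap.lineMap a b t))
        · rw [if_pos hyT]
          exact (heq y ⟨hyT, hy⟩).symm
        · rw [if_neg hyT]
    · intro z hz
      show (if z ∈ _ then _ else _) ∈ R z
      by_cases hzT : z ∈ thickening (min ρ (r / 4)) (segment ℝ a (AffineMap.lineMap a b t))
      · rw [if_pos hzT]
        exact hσR z (hTsub hzT)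
      · rw [if_neg hzT]
        rcases hcov hz with h | h
        · exact absurd h hzT
        · exact hs'R z h

end TubAux

theorem uTub : S_Unq → S_Tub := by
  intro hU E W _ _ _ U R hL a b hseg w hw
  have h0 : TubAux.G U R a b w 0 := by
    obtain ⟨N, hNo, haN, hNU, τ, τ', hτ0, hττ, hτc, -⟩ :=
      hL.triv a (hseg (left_mem_segment ℝ _ _))
    obtain ⟨ρ, hρ, hρN⟩ := Metric.isOpen_iff.1 hNo a haN
    have hth : thickening ρ (segment ℝ a (AffineMap.lineMap a b (0 : ℝ))) = ball a ρ := by
      rw [AffineMap.lineMap_apply_zero, segment_same, thickening_singleton]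
    refine ⟨ρ, hρ, ?_, fun z => τ z w, hτ0 w hw, ?_, ?_⟩
    · rw [hth]
      exact hρN.trans hNU
    · rw [hth]
      exact (hτc w hw).mono hρN
    · rw [hth]
      intro z hz
      exact (hττ z (hρN hz)).1 hw
  have h1 : TubAux.G U R a b w 0 → TubAux.G U R a b w 1 := by
    apply (isPreconnected_Icc (a := (0 : ℝ)) (b := 1)).induction₂'
      (fun t t' => TubAux.G U R a b w t → TubAux.G U R a b w t')
    · intro t1 ht1
      have hp1 : AffineMap.lineMap a b t1 ∈ U := by
        apply hseg
        rw [segment_eq_image_lineMap]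
        exact ⟨t1, ht1, rfl⟩
      obtain ⟨r, hr, hst⟩ := TubAux.step hU hL a b w _ hp1
      have hc : ContinuousAt (fun t : ℝ => AffineMap.lineMap a b t) t1 :=
        (AffineMap.lineMap_continuous).continuousAt
      have hev : ∀ᶠ t in 𝓝[Icc (0 : ℝ) 1] t1,
          AffineMap.lineMap a b t ∈ ball (AffineMap.lineMap a b t1) (r / 4) :=
        (hc.eventually (isOpen_ball.mem_nhds (mem_ball_self (by linarith)))).filter_mono
          nhdsWithin_le_nhds
      filter_upwards [hev, self_mem_nhdsWithin] with t ht htI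
      exact ⟨hst t1 t ht1.1 htI.1 (mem_ball_self (by linarith)) ht,
        hst t t1 htI.1 ht1.1 ht (mem_ball_self (by linarith))⟩
    · intro x y z _ _ _ hxy hyz hx
      exact hyz (hxy hx)
    · constructor <;> norm_num
    · constructor <;> norm_num
  obtain ⟨ρ, hρ, hρU, σ, hσa, hσc, hσR⟩ := h1 h0
  rw [AffineMap.lineMap_apply_one] at hρU hσc hσR
  exact ⟨ρ, hρ, hρU, σ, hσa, hσc, hσR⟩

end TATE.PA
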