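import Pool.Agent.Lib.TATE.PA.Unq
import Pool.Agent.Lib.TATE.PA.Pul
import Pool.Agent.Lib.TATE.PA.Tub
import Pool.Agent.Lib.TATE.PA.LPa
import Pool.Agent.Lib.TATE.PA.Lft
import Pool.Agent.Lib.TATE.PA.Mov
import Pool.Agent.Lib.TATE.PA.Rch
import Pool.Agent.Lib.TATE.PA.Conc
import Pool.Agent.Lib.TATE.PA.FrL
import Pool.Agent.Lib.TATE.PA.Eqv
import Pool.Agent.Lib.TATE.PA.Rmu
import Pool.Agent.Lib.TATE.PA.P1
import Pool.Agent.Lib.TATE.PA.P2
import Pool.Agent.Lib.TATE.PA.P3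
import Pool.Agent.Lib.TATE.PA.P4
import Pool.Agent.Lib.TATE.PA.P5

/-! PROJECT TATE, package PA: the interface statements PA1-PA5, closed. -/

set_option autoImplicit false

namespace TATE.PA

theorem cTub : S_Tub := uTub uUnq
theorem cLPa : S_LPa := uLPa uPul cTub
theorem cLft : S_Lft := uLft uUnq cTub
theorem cMov : S_Mov := uMov cLft
theorem cRch : S_Rch := uRch uUnq cLft
theorem cEqv : S_Eqv := uEqv uUnq uFrL
theorem cPA1 : StmtPA1 := tPA1 cLPa uUnq uFrL cEqv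
theorem cPA2 : StmtPA2 := tPA2 uFrL cEqv cRch cMov uCon
theorem cPA3 : StmtPA3 := tPA3 uFrL cEqv cLft cMov uCon uRmu
theorem cPA4 : StmtPA4 := tPA4
theorem cPA5 : StmtPA5 := tPA5 uFrL uUnq cEqv

end TATE.PA
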