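import Pool.Agent.Lib.TATE.PA.Spec

/-! PROJECT TATE, PA/P3: finite orbits give finite flat families. -/

set_option autoImplicit false

open Topology Metric Set

noncomputable section

namespace TATE.PA

namespace P3Aux

variable {V : Type} [NormedAddCommGroup V] [NormedSpace ℂ V] [FiniteDimensional ℂ V] {F : Set ℂ}

theorem cl_apply (T : V ≃ₗ[ℝ] V) (v : V) : cl T v = T v := rfl

theorem cl_trans (S T : V ≃ₗ[ℝ] V) : cl (S.trans T) = (cl T).comp (cl S) := by
  ext v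
  simp [cl_apply]

theorem cl_refl : cl (LinearEquiv.refl ℝ V) = ContinuousLinearMap.id ℝ V := by
  ext v
  simp [cl_apply]

theorem refl_image (L : Set V) : (LinearEquiv.refl ℝ V : V ≃ₗ[ℝ] V) '' L = L := by
  ext v
  constructor
  · rintro ⟨w, hw, rfl⟩
    exact hw
  · intro h
    exact ⟨v, h, rfl⟩

theorem cl_inj {S T : V ≃ₗ[ℝ] V} (h : cl S = cl T) : S = T := by
  ext v
  have := congrArg (fun f : V →L[ℝ] V => f v) h
  simpa [cl_apply] using this

theorem psh_comp {d : ℕ} (S T : V ≃ₗ[ℝ] V) (c : Cl V d) :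
    psh ((S.trans T : V ≃ₗ[ℝ] V) : V →ₗ[ℝ] V) c =
      psh (T : V →ₗ[ℝ] V) (psh (S : V →ₗ[ℝ] V) c) := by
  ext a
  rfl

theorem psh_refl {d : ℕ} (c : Cl V d) :
    psh ((LinearEquiv.refl ℝ V : V ≃ₗ[ℝ] V) : V →ₗ[ℝ] V) c = c := by
  ext a
  rfl

theorem reach_mem (M : Fml V F) {z : ℂ} (hz : z ∉ F) {y : ℂ × (V →L[ℝ] V)}
    (h : Reach Fᶜ (Frm M z) (z, ContinuousLinearMap.id ℝ V) y) :
    y.1 ∈ Fᶜ ∧ y.2 ∈ Frm M z y.1 := by
  induction h with
  | refl =>
    exact ⟨hz, LinearEquiv.refl ℝ V, cl_refl, refl_image _⟩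
  | tail _ h2 _ =>
    obtain ⟨h3, g, _, _, hg1, hg⟩ := h2
    refine ⟨h3 (right_mem_segment ℝ _ _), ?_⟩
    have h4 := hg 1 (right_mem_Icc.2 zero_le_one)
    rw [hg1, AffineMap.lineMap_apply_one] at h4
    exact h4

theorem reached_lat (M : Fml V F) {z z' : ℂ} (hz : z ∉ F) {T : V ≃ₗ[ℝ] V}
    (h : Reach Fᶜ (Frm M z) (z, ContinuousLinearMap.id ℝ V) (z', cl T)) :
    z' ∉ F ∧ T '' M.L z = M.L z' := by
  obtain ⟨h1, T', h2, h3⟩ := reach_mem M hz h
  refine ⟨h1, ?_⟩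
  have : T' = T := cl_inj h2
  rw [← this]
  exact h3

end P3Aux

open P3Aux in
theorem tPA3 : S_FrL → S_Eqv → S_Lft → S_Mov → S_Con → S_Rmu → StmtPA3 := by
  intro hFrL hEqv hLft hMov hCon hRmu V _ _ _ F hF M D hD z hz hzD d c hfin
  have hLS := hFrL V F hF M z hz
  obtain ⟨hR1, hR2⟩ := hRmu V F hF M z hz
  obtain ⟨-, -, -, -, hsymm, -⟩ := hLft (V →L[ℝ] V) Fᶜ (Frm M z) hLS
  let Rd : ℂ → (V ≃ₗ[ℝ] V) → Prop := fun z' T =>
    Reach Fᶜ (Frm M z) (z, ContinuousLinearMap.id ℝ V) (z', cl T)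
  let O : ℂ → Set (Cl V d) := fun z' => {c' | ∃ T, Rd z' T ∧ c' = psh (T : V →ₗ[ℝ] V) c}
  have hidz : (ContinuousLinearMap.id ℝ V) ∈ Frm M z z :=
    ⟨LinearEquiv.refl ℝ V, cl_refl, refl_image _⟩
  -- finiteness at z
  have hOz : (O z).Finite := by
    refine hfin.subset ?_
    rintro c' ⟨T, hT, rfl⟩
    have h1 := hMov (V →L[ℝ] V) Fᶜ (Frm M z) hLS D hD z hz hzD z hzD _ hidz _ hT
    obtain ⟨γ, g, hγ, hγ0, hγ1, hγU, hg, hg0, hg1, hgR⟩ :=
      hCon (V →L[ℝ] V) (Fᶜ \ D) (Frm M z) (z, ContinuousLinearMap.id ℝ V) (z, cl T)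
        ⟨hz, hzD⟩ hidz h1
    have hγ0' : γ 0 = z := hγ0
    have hγ1' : γ 1 = z := hγ1
    have hg0' : g 0 = ContinuousLinearMap.id ℝ V := hg0
    have hg1' : g 1 = cl T := hg1
    choose! φ hφ1 hφ2 using hgR
    have hpF : IsPth F γ z z := ⟨hγ, hγ0', hγ1', fun t ht => (hγU t ht).1⟩
    have hpFD : IsPth (F ∪ D) γ z z := ⟨hγ, hγ0', hγ1', fun t ht h =>
      h.elim (fun h' => (hγU t ht).1 h') (fun h' => (hγU t ht).2 h')⟩
    have h0 : (0:ℝ) ∈ Icc (0:ℝ) 1 := left_mem_Icc.2 zero_le_one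
    have h1' : (1:ℝ) ∈ Icc (0:ℝ) 1 := right_mem_Icc.2 zero_le_one
    have htr : IsTr M γ φ := by
      rw [hEqv V F hF M γ z z hpF φ]
      refine ⟨fun v => ?_, hg.congr fun t ht => hφ1 t ht, fun t ht => hφ2 t ht⟩
      have h5 := congrArg (fun f : V →L[ℝ] V => f v) ((hφ1 0 h0).trans hg0')
      simpa [cl_apply] using h5
    refine ⟨γ, φ, hpFD, htr, ?_⟩
    have h6 : φ 1 = T := cl_inj ((hφ1 1 h1').trans hg1')
    rw [h6]
  refine ⟨O, ⟨?_, ?_⟩, ?_⟩
  · -- finiteness at z'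
    intro z' hz'
    by_cases hne : ∃ T0, Rd z' T0
    · obtain ⟨T0, hT0⟩ := hne
      have hL0 := (reached_lat M hz hT0).2
      refine (hOz.image (psh (T0 : V →ₗ[ℝ] V))).subset ?_
      rintro c' ⟨T, hT, rfl⟩
      have hL := (reached_lat M hz hT).2
      let S : V ≃ₗ[ℝ] V := T.trans T0.symm
      have hS : cl S ∈ Frm M z z := by
        refine ⟨S, rfl, ?_⟩
        have h2 : S '' M.L z = T0.symm '' (T '' M.L z) := by
          rw [Set.image_image]
          rfl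
        rw [h2, hL, ← hL0, Set.image_image]
        simp
      have h3 : Reach Fᶜ (Frm M z) (z', cl T0) (z, ContinuousLinearMap.id ℝ V) :=
        hsymm _ _ hT0
      have h4 := hR1 Fᶜ z' z _ _ (cl S) hS h3
      have h5 : (cl T0).comp (cl S) = cl T := by
        ext v
        simp [S, cl_apply]
      have h6 : (ContinuousLinearMap.id ℝ V).comp (cl S) = cl S := by
        ext v
        simp
      rw [h5, h6] at h4
      refine ⟨psh (S : V →ₗ[ℝ] V) c, ⟨S, Relation.ReflTransGen.trans hT h4, rfl⟩, ?_⟩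
      rw [← psh_comp]
      have h7 : S.trans T0 = T := by
        ext v
        simp [S]
      rw [h7]
    · have : O z' = ∅ := by
        ext c'
        simp only [mem_empty_iff_false, iff_false]
        rintro ⟨T, hT, -⟩
        exact hne ⟨T, hT⟩
      rw [this]
      exact Set.finite_empty
  · -- flatness
    intro z1 hz1 z2 hz2
    ext c'
    constructor
    · rintro ⟨T', hT', rfl⟩
      have hL' := (reached_lat M hz hT').2
      let T : V ≃ₗ[ℝ] V := T'.trans (M.τ z1 z2).symm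
      have hTfr : cl T ∈ Frm M z z1 := by
        refine ⟨T, rfl, ?_⟩
        have h2 : T '' M.L z = (M.τ z1 z2).symm '' (T' '' M.L z) := by
          rw [Set.image_image]
          rfl
        rw [h2, hL', ← M.lat z1 hz1 z2 hz2, Set.image_image]
        simp
      have hst := hR2 z1 hz1 z2 hz2 (cl T) hTfr
      have h3 : (cl (M.τ z1 z2)).comp (cl T) = cl T' := by
        ext v
        simp [T, cl_apply]
      rw [h3] at hst
      have h4 : Reach Fᶜ (Frm M z) (z2, cl T') (z1, cl T) :=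
        hsymm _ _ (Relation.ReflTransGen.single hst)
      refine ⟨psh (T : V →ₗ[ℝ] V) c, ⟨T, Relation.ReflTransGen.trans hT' h4, rfl⟩, ?_⟩
      rw [← psh_comp]
      have h7 : T.trans (M.τ z1 z2) = T' := by
        ext v
        simp [T]
      rw [h7]
    · rintro ⟨c1, ⟨T, hT, rfl⟩, rfl⟩
      have hTfr : cl T ∈ Frm M z z1 := (reach_mem M hz hT).2
      have hst := hR2 z1 hz1 z2 hz2 (cl T) hTfr
      rw [← cl_trans] at hst
      exact ⟨T.trans (M.τ z1 z2), Relation.ReflTransGen.tail hT hst, (psh_comp _ _ _).symm⟩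
  · exact ⟨LinearEquiv.refl ℝ V, by
      change Reach Fᶜ (Frm M z) (z, ContinuousLinearMap.id ℝ V) (z, cl (LinearEquiv.refl ℝ V))
      rw [cl_refl]
      exact Relation.ReflTransGen.refl, (psh_refl c).symm⟩

end TATE.PA
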