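import Pool.Agent.Lib.TATE.Iface

/-!
# PROJECT TATE, package PA (helper10): transport along paths

No homotopy and no covering spaces: everything is a continuous lift over a path or a segment.
Every statement is a `Prop`; the docstring contains its complete proof.
-/

set_option autoImplicit false

open Topology Metric Set

noncomputable section

namespace TATE.PA

/-! ## 1. Local systems of countable sets -/

section LS
variable {X W : Type} [TopologicalSpace X] [TopologicalSpace W]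

/-- `R` is a local system of countable sets `R z ⊆ W` over the open set `U`; `τ z : R z0 → R z` is the
local transport, `τ' z` its inverse. -/
structure LS (U : Set X) (R : X → Set W) : Prop where
  isOpen : IsOpen U
  ctble : ∀ z ∈ U, (R z).Countable
  triv : ∀ z0 ∈ U, ∃ N : Set X, IsOpen N ∧ z0 ∈ N ∧ N ⊆ U ∧ ∃ τ τ' : X → W → W,
    (∀ w ∈ R z0, τ z0 w = w) ∧
    (∀ z ∈ N, MapsTo (τ z) (R z0) (R z) ∧ MapsTo (τ' z) (R z) (R z0) ∧
      (∀ w ∈ R z0, τ' z (τ z w) = w) ∧ (∀ w ∈ R z, τ z (τ' z w) = w)) ∧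
    (∀ w ∈ R z0, ContinuousOn (fun z => τ z w) N) ∧
    ContinuousOn (fun q : X × W => τ' q.1 q.2) {q | q.1 ∈ N ∧ q.2 ∈ R q.1}

end LS

/-- **Pul**: PULL BACK. Proof: at `y0` take `N' = h ⁻¹' N`, `τ (h y)`, `τ' (h y)` with `N`, `τ`, `τ'` of `h y0`. -/
def S_Pul : Prop := ∀ (X Y W : Type) [TopologicalSpace X] [TopologicalSpace Y]
  [TopologicalSpace W] (U : Set X) (R : X → Set W) (h : Y → X), LS U R → Continuous h →
  LS (h ⁻¹' U) (fun y => R (h y))

/-- **Unq**: UNIQUENESS OF LIFTS along an interval. Proof: let `A = {t ∈ Icc a b | g t = g' t}`. Claim: for every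
`t1 ∈ Icc a b` there is a neighbourhood of `t1` in `Icc a b` on which either all or no `t` is in `A`
(more precisely: for `t`, `t2` near `t1`: `t ∈ A ↔ t1 ∈ A`). Take `N, τ, τ'` at `z1 = γ t1` and `δ` with
`γ t ∈ N` for `t ∈ J := Icc a b ∩ Ioo (t1 - δ) (t1 + δ)` (an interval, so preconnected). The maps
`k t = τ' (γ t) (g t)`, `k' t = τ' (γ t) (g' t)` are continuous on `J` (composition of `t ↦ (γ t, g t)` with the
last clause) with values in the countable set `R z1` of a metric space, so constant on `J`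
(`Set.Countable.isTotallyDisconnected` and `IsPreconnected.image`). If `t1 ∈ A` then `k = k'` on `J`
and `g t = τ (γ t) (k t) = g' t`; if some `t ∈ J` is in `A` then `k = k'` and `g t1 = g' t1` in the same way.
Conclude with `isPreconnected_Icc` (for example `IsPreconnected.subset_of_closure_inter_subset` or
the induction principle for locally constant predicates). -/
def S_Unq : Prop := ∀ (X W : Type) [TopologicalSpace X] [MetricSpace W] (U : Set X)
  (R : X → Set W), LS U R → ∀ (γ : ℝ → X) (g g' : ℝ → W) (a b : ℝ), ContinuousOn γ (Icc a b) →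
  (∀ t ∈ Icc a b, γ t ∈ U) → ContinuousOn g (Icc a b) → ContinuousOn g' (Icc a b) →
  (∀ t ∈ Icc a b, g t ∈ R (γ t)) → (∀ t ∈ Icc a b, g' t ∈ R (γ t)) →
  ∀ t0 ∈ Icc a b, g t0 = g' t0 → ∀ t ∈ Icc a b, g t = g' t

/-- **Tub**: SECTIONS OVER A NEIGHBOURHOOD OF A SEGMENT. Proof. First (from `S_Unq` along segments): two
continuous sections on a CONVEX subset of `U` which agree at one point are equal. Put
`p t = AffineMap.lineMap a b t` and `G t` = there are `ρ > 0` with `thickening ρ (segment ℝ a (p t)) ⊆ U` and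
`σ`, continuous on this thickening (which is open and convex: `Convex.thickening`), with values in `R z` and
`σ a = w`. `G 0`: take `N`, `τ` at `a`, a ball `ball a ρ ⊆ N`, `σ z = τ z w`. Claim: every `t1 ∈ Icc 0 1` has
a neighbourhood `J` in `Icc 0 1` such that for `t, t' ∈ J`: `G t → G t'`. Take `N, τ, τ'` at `p t1`, `r` with
`ball (p t1) r ⊆ N`, `J` = the `t` with `dist (p t) (p t1) < r / 4`. Let `G t` hold with `ρ, σ`, w.l.o.g.
`ρ < r / 4`. If `t' ≤ t` restrict. If `t < t'`: `σ' z = τ z (τ' (p t) (σ (p t)))` is a continuous section on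
`ball (p t1) r` which agrees with `σ` at `p t`, hence on the convex set `thickening ∩ ball`. The glued function
(`σ` on the thickening, `σ'` elsewhere on the ball) is a continuous section on the open union, and
`thickening ρ (segment a (p t')) ⊆` union, because `segment a (p t') ⊆ segment a (p t) ∪ segment (p t) (p t')`
and the second piece lies in `ball (p t1) (r / 4)`. So `G 1` by connectedness of `Icc 0 1`. -/
def S_Tub : Prop := ∀ (E W : Type) [NormedAddCommGroup E] [NormedSpace ℝ E] [MetricSpace W]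
  (U : Set E) (R : E → Set W), LS U R → ∀ (a b : E), segment ℝ a b ⊆ U → ∀ w ∈ R a,
  ∃ ρ > 0, thickening ρ (segment ℝ a b) ⊆ U ∧ ∃ σ : E → W, σ a = w ∧
    ContinuousOn σ (thickening ρ (segment ℝ a b)) ∧
    ∀ z ∈ thickening ρ (segment ℝ a b), σ z ∈ R z

/-- **LPa**: LIFTING OF PATHS. Proof: `h = γ ∘ projIcc 0 1` is continuous `ℝ → X` with values in `U`; `S_Pul` gives
an `LS` over `h ⁻¹' U = univ` on `ℝ`; `S_Tub` with `E = ℝ`, `a = 0`, `b = 1` gives `σ` on a neighbourhood of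
`Icc 0 1 = segment ℝ 0 1`; `g = σ`. -/
def S_LPa : Prop := ∀ (X W : Type) [TopologicalSpace X] [MetricSpace W] (U : Set X)
  (R : X → Set W), LS U R → ∀ (γ : ℝ → X), ContinuousOn γ (Icc 0 1) →
  (∀ t ∈ Icc (0:ℝ) 1, γ t ∈ U) → ∀ w ∈ R (γ 0), ∃ g : ℝ → W, g 0 = w ∧
    ContinuousOn g (Icc 0 1) ∧ ∀ t ∈ Icc (0:ℝ) 1, g t ∈ R (γ t)

section Paths
variable {W : Type} [MetricSpace W]

/-- `w'` at `b` is the transport of `w` at `a` along the segment from `a` to `b`. -/
def Lift (R : ℂ → Set W) (a b : ℂ) (w w' : W) : Prop :=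
  ∃ g : ℝ → W, ContinuousOn g (Icc 0 1) ∧ g 0 = w ∧ g 1 = w' ∧
    ∀ t ∈ Icc (0:ℝ) 1, g t ∈ R (AffineMap.lineMap a b t)

/-- One segment of a polygonal path in `U`. -/
def Step (U : Set ℂ) (R : ℂ → Set W) (x y : ℂ × W) : Prop :=
  segment ℝ x.1 y.1 ⊆ U ∧ Lift R x.1 y.1 x.2 y.2

/-- Transport along some polygonal path in `U`. -/
def Reach (U : Set ℂ) (R : ℂ → Set W) : ℂ × W → ℂ × W → Prop :=
  Relation.ReflTransGen (Step U R)

end Paths

/-- **Lft**: TRANSPORT ALONG SEGMENTS: existence, uniqueness, inverse, constant, inverse of `Reach`, and the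
QUADRILATERAL lemma. Proofs: existence from `S_Tub` (restrict `σ` to the segment); uniqueness from `S_Unq`
with `γ = lineMap a b`; inverse: `t ↦ g (1 - t)`; `Reach` backwards: `Step` is symmetric (`segment_symm`).
Quadrilateral: `S_Tub` for `a`, `b`, `w` gives `ρ`, `σ`; `ε = ρ` (balls of radius `ρ` round `a`, `b` lie in the
thickening, which is convex). `σ b = w'`, `σ a' = w1`, `σ b' = w1'` by uniqueness over the segments
`[a,b]`, `[a,a']`, `[b,b']`, all contained in the convex thickening; the restriction of `σ` to `[a',b']` is a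
lift. -/
def S_Lft : Prop := ∀ (W : Type) [MetricSpace W] (U : Set ℂ) (R : ℂ → Set W), LS U R →
  (∀ a b, segment ℝ a b ⊆ U → ∀ w ∈ R a, ∃ w' ∈ R b, Lift R a b w w') ∧
  (∀ a b, segment ℝ a b ⊆ U → ∀ w w1 w2, Lift R a b w w1 → Lift R a b w w2 → w1 = w2) ∧
  (∀ a b w w', Lift R a b w w' → Lift R b a w' w) ∧
  (∀ a w, w ∈ R a → Lift R a a w w) ∧
  (∀ x y, Reach U R x y → Reach U R y x) ∧
  (∀ a b, segment ℝ a b ⊆ U → ∀ w w', Lift R a b w w' → ∃ ε > 0, ball a ε ⊆ U ∧ ball b ε ⊆ U ∧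
    ∀ a' ∈ ball a ε, ∀ b' ∈ ball b ε, ∀ w1 w1', Lift R a a' w w1 → Lift R b b' w' w1' →
      segment ℝ a' b' ⊆ U ∧ Lift R a' b' w1 w1')

/-- **Mov**: MOVING OFF A COUNTABLE SET (end points `z0`, `z1` not in `Bad`). Proof. For a point `c` let
`Ln c = ⋃ (b ∈ Bad, b ≠ c)` of the real affine line through `c` and `b`: a null set (`volume` on `ℂ`, countable
union, `MeasureTheory.Measure.addHaar_affineSubspace`; or use helper92's `TATE/PathC.lean`, theorem
`ae_segment_disjoint` in `Pool/Agent/Lib/MP_640417_ag/TATE/PathC.lean`). If `c ∉ Bad` and `z ∉ Ln c` then the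
segment `[c, z]` avoids `Bad`. Claim (induction on `Reach U R (z0, w) (z, u)`): there are `ε > 0` with
`ball z ε ⊆ U` and a null set `N` such that for `z' ∈ ball z ε \ N` and `u'` with `Lift R z z' u u'`:
`Reach (U \ Bad) R (z0, w) (z', u')`. Start: `N = Ln z0`, one step. Step from `(z, u)` to `(y, x)`:
quadrilateral lemma gives `ε1`; choose `z' ∈ ball z (min ε ε1)`, `z' ∉ N ∪ Bad` (a ball is not null), and `u'`
with `Lift R z z' u u'` (existence over `[z,z'] ⊆ ball z ε ⊆ U`); `Reach (U \ Bad) (z0, w) (z', u')`. Put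
`N_y = Ln z'`, `ε_y = ε1`: for `y' ∈ ball y ε1 \ N_y` and `Lift R y y' x x'`: `[z', y'] ⊆ U \ Bad` and
`Lift R z' y' u' x'`, one more step. End: from the claim at `(z1, w')` choose
`z' ∈ ball z1 ε \ (N ∪ Ln z1)`, `u'` with `Lift R z1 z' w' u'`, and add the step `(z', u') → (z1, w')` (inverse
lift; the segment `[z1, z'] ⊆ ball z1 ε` avoids `Bad`). -/
def S_Mov : Prop := ∀ (W : Type) [MetricSpace W] (U : Set ℂ) (R : ℂ → Set W), LS U R →
  ∀ (Bad : Set ℂ), Bad.Countable → ∀ z0 ∈ U, z0 ∉ Bad → ∀ z1 ∉ Bad, ∀ w ∈ R z0, ∀ w',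
    Reach U R (z0, w) (z1, w') → Reach (U \ Bad) R (z0, w) (z1, w')

/-- **Rch**: FROM A CONTINUOUS PATH TO SEGMENTS. Proof: `P t = Reach U R (γ 0, g 0) (γ t, g t)`; `P 0` by
reflexivity. For `t1 ∈ Icc 0 1` let `N, τ, τ'` be as in `triv` at `γ t1`, `ball (γ t1) r ⊆ N` and `J` an interval
neighbourhood of `t1` in `Icc 0 1` with `γ J ⊆ ball (γ t1) r`. For `t ∈ J`: `σ z = τ z (g t1)` is a continuous
section on `N`, so `t ↦ σ (γ t)` and `g` are two lifts over `γ` on the interval between `t1` and `t` which agree at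
`t1`: equal by `S_Unq`. Hence `Step U R (γ t1, g t1) (γ t, g t)` (lift `u ↦ σ (lineMap (γ t1) (γ t) u)`), and also
the inverse step (`S_Lft`). So `P t1 ↔ P t` for `t ∈ J`; `Icc 0 1` is connected. -/
def S_Rch : Prop := ∀ (W : Type) [MetricSpace W] (U : Set ℂ) (R : ℂ → Set W), LS U R →
  ∀ (γ : ℝ → ℂ) (g : ℝ → W), ContinuousOn γ (Icc 0 1) → (∀ t ∈ Icc (0:ℝ) 1, γ t ∈ U) →
  ContinuousOn g (Icc 0 1) → (∀ t ∈ Icc (0:ℝ) 1, g t ∈ R (γ t)) →
  Reach U R (γ 0, g 0) (γ 1, g 1)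

/-- **Con**: FROM SEGMENTS TO A CONTINUOUS PATH (no hypothesis on `U`, `R`). Proof: induction on
`Relation.ReflTransGen` (head or tail). Constant path for `refl`. For `(γ, g)` from `x` to `y` and a step from `y` to
`z` with lift `k`: `γ' t = γ (2 t)` for `t ≤ 1/2`, `lineMap y.1 z.1 (2 t - 1)` for `t > 1/2` (take `γ` to be
constant outside `Icc 0 1` first, or require `Continuous γ` as here and use `Continuous.if_le`), `g'` the same
with `k`; continuity at `1/2` because the values agree. -/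
def S_Con : Prop := ∀ (W : Type) [MetricSpace W] (U : Set ℂ) (R : ℂ → Set W) (x y : ℂ × W),
  x.1 ∈ U → x.2 ∈ R x.1 → Reach U R x y →
  ∃ (γ : ℝ → ℂ) (g : ℝ → W), Continuous γ ∧ γ 0 = x.1 ∧ γ 1 = y.1 ∧
    (∀ t ∈ Icc (0:ℝ) 1, γ t ∈ U) ∧ ContinuousOn g (Icc 0 1) ∧ g 0 = x.2 ∧ g 1 = y.2 ∧
    ∀ t ∈ Icc (0:ℝ) 1, g t ∈ R (γ t)

/-! ## 2. Frames of a family -/

section fr
variable {V : Type} [NormedAddCommGroup V] [NormedSpace ℂ V] [FiniteDimensional ℂ V] {F : Set ℂ}

/-- A linear automorphism as a continuous linear map. -/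
def cl (T : V ≃ₗ[ℝ] V) : V →L[ℝ] V := LinearMap.toContinuousLinearMap (T : V →ₗ[ℝ] V)

/-- The frames at `z` relative to `z0`: linear automorphisms which map `L z0` onto `L z`. -/
def Frm (M : Fml V F) (z0 z : ℂ) : Set (V →L[ℝ] V) :=
  {T | ∃ T' : V ≃ₗ[ℝ] V, cl T' = T ∧ T' '' M.L z0 = M.L z}

end fr

/-- **FrL**: THE FRAMES ARE A LOCAL SYSTEM over `Fᶜ`. Proof: `isOpen`: `F` is finite. Countable: choose a finite
subset `B ⊆ M.L z0` which spans `V` over `ℝ` (`M.spn z0`, finite dimension); `T ↦ (T b)_(b ∈ B)` is injective on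
`Frm M z0 z` with values in the countable set `M.L z ^ B`. `triv` at `z1`: `N = ball z1 (M.r z1)`,
`τ z T = cl (M.τ z1 z) ∘ T`, `τ' z T = cl (M.τ z1 z).symm ∘ T`. Continuity: `z ↦ cl (M.τ z1 z)` is continuous on
`N` in operator norm, because `z ↦ M.τ z1 z v` is continuous for every `v` (`M.hol`) and `V` is finite
dimensional (`continuousOn_clm_apply` or a basis); the inverse is continuous
(`NormedRing.inverse_continuousAt`, `ContinuousLinearEquiv.inverse` or Cramer). `M.one`: `τ z1 = id`. -/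
def S_FrL : Prop := ∀ (V : Type) [NormedAddCommGroup V] [NormedSpace ℂ V]
  [FiniteDimensional ℂ V] (F : Set ℂ), F.Finite → ∀ (M : Fml V F), ∀ z0 ∉ F,
  LS Fᶜ (Frm M z0)

/-- **Eqv**: `IsTr` MEANS continuous and lattice to lattice. Proof. `→`: continuity at `t`: near `t`,
`φ t' v = M.τ (γ t) (γ t') (φ t v)`, `M.hol` gives continuity in `γ t'` on the ball, `γ` is continuous. Lattices:
for `t'` near `t`, `φ t' '' L (γ 0) = M.τ (γ t) (γ t') '' (φ t '' L (γ 0))`, so by `M.lat` (and injectivity of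
`M.τ`) the statement at `t` and at `t'` are equivalent; connectedness of `Icc 0 1` and `φ 0 = id`.
`←`: fix `t ∈ Icc 0 1`, `ε` with `γ t' ∈ ball (γ t) (M.r (γ t))` for `t' ∈ Icc 0 1`, `|t' - t| < ε`. On the closed
interval between `t` and `t'` the two families `cl (φ u)` and `cl (M.τ (γ t) (γ u)) ∘ cl (φ t)` are lifts of
`γ` to `Frm M z` (continuous in operator norm because `V` is finite dimensional), equal at `t`; `S_Unq` with
`S_FrL`. -/
def S_Eqv : Prop := ∀ (V : Type) [NormedAddCommGroup V] [NormedSpace ℂ V]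
  [FiniteDimensional ℂ V] (F : Set ℂ), F.Finite → ∀ (M : Fml V F) (γ : ℝ → ℂ) (z z' : ℂ),
  IsPth F γ z z' → ∀ φ : ℝ → (V ≃ₗ[ℝ] V), IsTr M γ φ ↔
    (∀ v, φ 0 v = v) ∧ ContinuousOn (fun t => cl (φ t)) (Icc 0 1) ∧
      ∀ t ∈ Icc (0:ℝ) 1, φ t '' M.L z = M.L (γ t)

/-- **Rmu**: RIGHT MULTIPLICATION and LOCAL STEPS. (1) `Reach U (Frm M z0) (a, T) (b, T')` implies
`Reach U (Frm M z0) (a, T ∘ S) (b, T' ∘ S)` for `S ∈ Frm M z0 z0` (for every lift `g` take `t ↦ g t ∘ S`).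
(2) for `z ∉ F`, `z' ∈ ball z (M.r z)`, `T ∈ Frm M z0 z`: a step from `(z, T)` to `(z', cl (M.τ z z') ∘ T)` (lift
`u ↦ cl (M.τ z (lineMap z z' u)) ∘ T`, the segment is in the ball, `M.dom`). -/
def S_Rmu : Prop := ∀ (V : Type) [NormedAddCommGroup V] [NormedSpace ℂ V]
  [FiniteDimensional ℂ V] (F : Set ℂ), F.Finite → ∀ (M : Fml V F), ∀ z0 ∉ F,
  (∀ (U : Set ℂ) (a b : ℂ) (T T' S : V →L[ℝ] V), S ∈ Frm M z0 z0 →
    Reach U (Frm M z0) (a, T) (b, T') → Reach U (Frm M z0) (a, T.comp S) (b, T'.comp S)) ∧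
  (∀ z ∉ F, ∀ z' ∈ ball z (M.r z), ∀ T ∈ Frm M z0 z,
    Step Fᶜ (Frm M z0) (z, T) (z', (cl (M.τ z z')).comp T))

/-! ## 3. The interface statements

* `P1 : S_LPa → S_Unq → S_FrL → S_Eqv → StmtPA1`. Existence: `S_LPa` for `Fᶜ`, `Frm M z`, `γ`, `w = id`
  (`id ∈ Frm M z z`); for `t ∈ Icc 0 1` choose `φ t` with `cl (φ t) = g t`, `φ t = id` otherwise; `S_Eqv`. Lattices:
  `S_Eqv`. Uniqueness: `S_Eqv` for both and `S_Unq` (the families `cl (φ t)`, `cl (φ' t)` agree at `0`).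
* `P2 : S_FrL → S_Eqv → S_Rch → S_Mov → S_Con → StmtPA2`. `S_Eqv` and `S_Rch`:
  `Reach Fᶜ (Frm M z) (z, id) (z', cl (φ 1))`; `S_Mov`; `S_Con` with `U = Fᶜ \ D = (F ∪ D)ᶜ`; choose `φ'` as in
  `P1`; `S_Eqv` (for the path `γ'` outside `F`).
* `P3 : S_FrL → S_Eqv → S_Lft → S_Mov → S_Con → S_Rmu → StmtPA3`. Put
  `O z' = {psh T c | Reach Fᶜ (Frm M z) (z, id) (z', cl T)}` (`T : V ≃ₗ[ℝ] V`). `c ∈ O z`: reflexivity, `T = id`.
  (a) `O z` is finite: by `S_Mov`, `S_Con`, `S_Eqv` every such `T` is `φ 1` for a loop outside `F ∪ D`.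
  (b) `O z'` is finite: if `T0`, `T` are both reached at `z'`, then `S = T0⁻¹ T ∈ Frm M z z` (`T''L z = L z'` for
  reached `T`: the second component of a reached pair lies in `Frm`), reverse the path of `T0` (`S_Lft`) and
  multiply by `S` (`S_Rmu`): `Reach (z', T) (z, S)`, so `Reach (z, id) (z, S)`: `psh S c ∈ O z` and
  `psh T c = psh T0 (psh S c)`. (c) flat: by `S_Rmu` (2) and its inverse step, `T` is reached at `z1` iff
  `M.τ z1 z2 ∘ T` is reached at `z2`; every `T'` reached at `z2` is of this form.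
* `P4 : StmtPA4`. No other statement is needed. For `c ∈ O z` let
  `P t = psh (φ t) c ∈ O (γ t) ∧ JC (φ t) c`. `P 0`: `φ 0 = id`. For `t'` near `t`: `φ t' = M.τ (γ t) (γ t') ∘ φ t`, and
  `P t → P t'`: `flat` and `StmtFP` for `c1 = psh (φ t) c ∈ O (γ t)`: `JC τ c1`; then
  `der (psh (τ φ) c) a = der (psh τ c1) a = der c1 (a ∘ τ) = der c (a ∘ τ ∘ φ)`. `P t' → P t`: `psh (φ t') c = psh τ c1`
  with `c1 = psh (φ t) c` is in `O (γ t') = psh τ '' O (γ t)`, `psh τ` is injective, so `c1 ∈ O (γ t)` and `JC τ c1`;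
  `der c1 (a ∘ τ) = der (psh τ c1) a = der c (a ∘ τ ∘ φ)` for all `a`, and every tuple is of the form `a ∘ τ`.
  Connectedness of `Icc 0 1`.
* `P5 : S_FrL → S_Unq → S_Eqv → StmtPA5`. `IsPth F (cat γ γ') z z`: continuity at `1/2` (`γ 1 = γ' 1`). Put
  `χ t = φ (2 t)` for `t ≤ 1/2`, `χ t = φ' (2 - 2 t) ∘ (φ' 1)⁻¹ ∘ φ 1` for `t > 1/2`. By `S_Eqv` for `φ`, `φ'`:
  `χ` is continuous, `χ 0 = id`, `χ t '' L z = L (cat γ γ' t)` (`(φ' 1)⁻¹ φ 1 '' L z = L z`); so `χ` and `ψ` are two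
  lifts of `cat γ γ'` to `Frm M z` with the same start (`S_Eqv` for `ψ`), `S_Unq`: `ψ 1 = χ 1 = (φ' 1)⁻¹ φ 1`
  (`φ' 0 = id`). -/

end TATE.PA
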