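import Pool.Agent.Lib.TATE.PA.Spec

/-!
Project TATE (MP_640417_ag), package PA: uniqueness of lifts along an interval.
-/

set_option autoImplicit false

open Topology Metric Set

noncomputable section

namespace TATE.PA

namespace UnqAux

theorem conn (a b : ℝ) (P : ℝ → Prop)
    (h : ∀ t1 ∈ Icc a b, ∃ δ > 0, ∀ t ∈ Icc a b, dist t t1 < δ → (P t ↔ P t1)) :
    ∀ t0 ∈ Icc a b, P t0 → ∀ t ∈ Icc a b, P t := by
  have hL : IsLocallyConstant (fun t : Icc a b => P t) := by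
    rw [IsLocallyConstant.iff_eventually_eq]
    rintro ⟨t1, ht1⟩
    obtain ⟨δ, hδ, H⟩ := h t1 ht1
    rw [Metric.eventually_nhds_iff]
    refine ⟨δ, hδ, fun {y} hy => propext (H y y.2 ?_)⟩
    rw [Subtype.dist_eq] at hy
    exact hy
  intro t0 ht0 h0 t ht
  have hP : PreconnectedSpace (Icc a b) := Subtype.preconnectedSpace isPreconnected_Icc
  have hE := hL.apply_eq_of_preconnectedSpace ⟨t0, ht0⟩ ⟨t, ht⟩
  exact hE.mp h0

theorem const_of_countable {W : Type} [MetricSpace W] (J : Set ℝ) (hJ : IsPreconnected J)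
    (k : ℝ → W) (hk : ContinuousOn k J) (C : Set W) (hC : C.Countable) (hkC : ∀ t ∈ J, k t ∈ C)
    (s t : ℝ) (hs : s ∈ J) (ht : t ∈ J) : k s = k t := by
  have h1 : IsPreconnected (k '' J) := hJ.image k hk
  have h2 : (k '' J).Subsingleton := by
    apply hC.isTotallyDisconnected (k '' J) _ h1
    rintro _ ⟨u, hu, rfl⟩
    exact hkC u hu
  exact h2 ⟨s, hs, rfl⟩ ⟨t, ht, rfl⟩

end UnqAux

open UnqAux in
theorem uUnq : S_Unq := by
  intro X W _ _ U R hLS γ g g' a b hγ hγU hg hg' hgR hgR' t0 ht0 h0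
  refine conn a b (fun t => g t = g' t) ?_ t0 ht0 h0
  intro t1 ht1
  obtain ⟨N, hNo, hzN, hNU, τ, τ', -, hT, -, hc⟩ := hLS.triv (γ t1) (hγU t1 ht1)
  -- the neighbourhood of `t1`
  have hnh : ∀ᶠ t in 𝓝[Icc a b] t1, γ t ∈ N := (hγ t1 ht1) (hNo.mem_nhds hzN)
  rw [eventually_nhdsWithin_iff, Metric.eventually_nhds_iff] at hnh
  obtain ⟨δ, hδ, hδN⟩ := hnh
  refine ⟨δ, hδ, ?_⟩
  obtain ⟨J, hJ⟩ : ∃ J : Set ℝ, J = Icc a b ∩ ball t1 δ := ⟨_, rfl⟩
  have hJc : IsPreconnected J := by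
    rw [hJ]
    exact ((convex_Icc a b).inter (convex_ball t1 δ)).isPreconnected
  have hJI : J ⊆ Icc a b := by rw [hJ]; exact inter_subset_left
  have hJN : ∀ t ∈ J, γ t ∈ N := by
    intro t ht
    rw [hJ] at ht
    exact hδN ht.2 ht.1
  have ht1J : t1 ∈ J := by
    rw [hJ]
    exact ⟨ht1, mem_ball_self hδ⟩
  have key : ∀ f : ℝ → W, ContinuousOn f (Icc a b) → (∀ t ∈ Icc a b, f t ∈ R (γ t)) →
      ∀ s ∈ J, ∀ t ∈ J, τ' (γ s) (f s) = τ' (γ t) (f t) := by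
    intro f hf hfR s hs t ht
    refine const_of_countable J hJc (fun u => τ' (γ u) (f u)) ?_ (R (γ t1))
      (hLS.ctble _ (hγU t1 ht1)) ?_ s t hs ht
    · have h1 : ContinuousOn (fun u => (γ u, f u)) J := (hγ.mono hJI).prodMk (hf.mono hJI)
      exact hc.comp h1 (fun u hu => ⟨hJN u hu, hfR u (hJI hu)⟩)
    · intro u hu
      exact (hT (γ u) (hJN u hu)).2.1 (hfR u (hJI hu))
  have step : ∀ s ∈ J, ∀ t ∈ J, g s = g' s → g t = g' t := by
    intro s hs t ht hst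
    have e1 := key g hg hgR s hs t ht
    have e2 := key g' hg' hgR' s hs t ht
    rw [hst] at e1
    have e3 : τ' (γ t) (g t) = τ' (γ t) (g' t) := e1.symm.trans e2
    have e4 := (hT (γ t) (hJN t ht)).2.2.2 (g t) (hgR t (hJI ht))
    have e5 := (hT (γ t) (hJN t ht)).2.2.2 (g' t) (hgR' t (hJI ht))
    rw [← e4, ← e5, e3]
  intro t ht hd
  have htJ : t ∈ J := by
    rw [hJ]
    exact ⟨ht, hd⟩
  exact ⟨fun h => step t htJ t1 ht1J h, fun h => step t1 ht1J t htJ h⟩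

end TATE.PA
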